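import Mathlib

/-!
# Bounded over-recurrent functions in mixing systems

Every nontrivial mixing system has a bounded non-constant function `G` with
`∫ G · G ∘ T ^ k ≥ 0 = (∫ G) ^ 2` for all `k`.  The function is `G = ∑ 2 ^ (-i) (1_{E i} - μ (E i))`
for almost invariant sets `E i` whose measures `m i` tend to `0` not too fast: the autocorrelation of
`1_E - μ E` is at least `- (μ E) ^ 2` at all times, it is about `μ E` up to a very large time, and the
cross correlations with the earlier functions are uniformly small by the mean ergodic theorem.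
-/

set_option autoImplicit false
set_option linter.unusedSectionVars false
set_option linter.unusedVariables false
open MeasureTheory Filter Topology

namespace Pool.Agent.NH63.OverRec

/-- Sequences by recursion. -/
theorem exists_seq' {α : Type*} (P : ℕ → α → Prop) (R : ℕ → α → α → Prop) (a : α) (h0 : P 0 a)
    (hs : ∀ n x, P n x → ∃ y, P (n + 1) y ∧ R n x y) :
    ∃ f : ℕ → α, (∀ n, P n (f n)) ∧ (∀ n, R n (f n) (f (n + 1))) ∧ f 0 = a := by
  classical
  choose! F hF using hs
  let g : (n : ℕ) → {x : α // P n x} := fun n =>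
    Nat.rec ⟨a, h0⟩ (fun k x => ⟨F k x.1, (hF k x.1 x.2).1⟩) n
  refine ⟨fun n => (g n).1, fun n => (g n).2, fun n => ?_, rfl⟩
  exact (hF n (g n).1 (g n).2).2

variable {X : Type*} [MeasurableSpace X]

/-- The correlation of `f` and `g` at time `k`. -/
noncomputable def corr (μ : Measure X) (T : X → X) (f g : X → ℝ) (k : ℕ) : ℝ :=
  ∫ x, f x * g (T^[k] x) ∂μ

/-- Bounded measurable functions. -/
def Bd (f : X → ℝ) : Prop := Measurable f ∧ ∃ C : ℝ, ∀ x, |f x| ≤ C

/-- The indicator function. -/
noncomputable def ind (E : Set X) : X → ℝ := E.indicator (fun _ => (1 : ℝ))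

lemma ind_nonneg (E : Set X) (x : X) : 0 ≤ ind E x := Set.indicator_nonneg (fun _ _ => zero_le_one) x

lemma ind_le_one (E : Set X) (x : X) : ind E x ≤ 1 :=
  Set.indicator_le' (fun _ _ => le_rfl) (fun _ _ => zero_le_one) x

lemma ind_bd {E : Set X} (hE : MeasurableSet E) : Bd (ind E) := by
  refine ⟨measurable_const.indicator hE, 1, fun x => ?_⟩
  rw [abs_of_nonneg (ind_nonneg E x)]
  exact ind_le_one E x

lemma const_bd (c : ℝ) : Bd (fun _ : X => c) := ⟨measurable_const, |c|, fun _ => le_rfl⟩

lemma Bd.add {f g : X → ℝ} (hf : Bd f) (hg : Bd g) : Bd (fun x => f x + g x) := by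
  obtain ⟨hf, C, hC⟩ := hf
  obtain ⟨hg, D, hD⟩ := hg
  exact ⟨hf.add hg, C + D, fun x => (abs_add_le _ _).trans (add_le_add (hC x) (hD x))⟩

lemma Bd.mul {f g : X → ℝ} (hf : Bd f) (hg : Bd g) : Bd (fun x => f x * g x) := by
  obtain ⟨hf, C, hC⟩ := hf
  obtain ⟨hg, D, hD⟩ := hg
  refine ⟨hf.mul hg, C * D, fun x => ?_⟩
  rw [abs_mul]
  exact mul_le_mul (hC x) (hD x) (abs_nonneg _) ((abs_nonneg _).trans (hC x))

lemma Bd.const_mul {f : X → ℝ} (hf : Bd f) (c : ℝ) : Bd (fun x => c * f x) := (const_bd c).mul hf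

lemma Bd.sub_const {f : X → ℝ} (hf : Bd f) (c : ℝ) : Bd (fun x => f x - c) := by
  have := hf.add (const_bd (X := X) (-c))
  simpa [sub_eq_add_neg] using this

lemma Bd.integrable {f : X → ℝ} (hf : Bd f) (μ : Measure X) [IsFiniteMeasure μ] :
    Integrable f μ := by
  obtain ⟨hf, C, hC⟩ := hf
  refine Integrable.of_bound hf.aestronglyMeasurable C (Eventually.of_forall fun x => ?_)
  rw [Real.norm_eq_abs]
  exact hC x

lemma Bd.comp {f : X → ℝ} (hf : Bd f) {S : X → X} (hS : Measurable S) : Bd (fun x => f (S x)) :=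
  ⟨hf.1.comp hS, hf.2.imp fun _ h x => h _⟩

section
variable {μ : Measure X} [IsProbabilityMeasure μ] {T : X → X} (hT : MeasurePreserving T μ μ)
include hT

lemma iter_meas (k : ℕ) : Measurable (T^[k]) := hT.measurable.iterate k

lemma integral_iter {f : X → ℝ} (hf : Measurable f) (k : ℕ) :
    ∫ x, f (T^[k] x) ∂μ = ∫ x, f x ∂μ := by
  have h := (hT.iterate k)
  have h2 := integral_map (μ := μ) (f := f) h.measurable.aemeasurable
    (by rw [h.map_eq]; exact hf.aestronglyMeasurable)
  rw [h.map_eq] at h2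
  exact h2.symm

lemma int_prod {f g : X → ℝ} (hf : Bd f) (hg : Bd g) (k : ℕ) :
    Integrable (fun x => f x * g (T^[k] x)) μ :=
  (hf.mul (hg.comp (iter_meas hT k))).integrable μ

lemma corr_add_left {f f' g : X → ℝ} (hf : Bd f) (hf' : Bd f') (hg : Bd g) (k : ℕ) :
    corr μ T (fun x => f x + f' x) g k = corr μ T f g k + corr μ T f' g k := by
  unfold corr
  rw [← integral_add (int_prod hT hf hg k) (int_prod hT hf' hg k)]
  exact integral_congr_ae (Eventually.of_forall fun x => by ring)

lemma corr_add_right {f g g' : X → ℝ} (hf : Bd f) (hg : Bd g) (hg' : Bd g') (k : ℕ) :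
    corr μ T f (fun x => g x + g' x) k = corr μ T f g k + corr μ T f g' k := by
  unfold corr
  rw [← integral_add (int_prod hT hf hg k) (int_prod hT hf hg' k)]
  exact integral_congr_ae (Eventually.of_forall fun x => by ring)

omit hT in
lemma corr_mul_left (f g : X → ℝ) (c : ℝ) (k : ℕ) :
    corr μ T (fun x => c * f x) g k = c * corr μ T f g k := by
  unfold corr
  rw [← integral_const_mul]
  exact integral_congr_ae (Eventually.of_forall fun x => by ring)

omit hT in
lemma corr_mul_right (f g : X → ℝ) (c : ℝ) (k : ℕ) :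
    corr μ T f (fun x => c * g x) k = c * corr μ T f g k := by
  unfold corr
  rw [← integral_const_mul]
  exact integral_congr_ae (Eventually.of_forall fun x => by ring)

lemma corr_const_left {g : X → ℝ} (hg : Measurable g) (c : ℝ) (k : ℕ) :
    corr μ T (fun _ => c) g k = c * ∫ x, g x ∂μ := by
  unfold corr
  rw [integral_const_mul, integral_iter hT hg]

omit hT in
lemma corr_const_right (f : X → ℝ) (c : ℝ) (k : ℕ) :
    corr μ T f (fun _ => c) k = c * ∫ x, f x ∂μ := by
  unfold corr
  rw [integral_mul_const, mul_comm]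

lemma corr_ind {A B : Set X} (hA : MeasurableSet A) (hB : MeasurableSet B) (k : ℕ) :
    corr μ T (ind A) (ind B) k = μ.real (A ∩ T^[k] ⁻¹' B) := by
  unfold corr ind
  have : (fun x => A.indicator (fun _ => (1 : ℝ)) x * B.indicator (fun _ => (1 : ℝ)) (T^[k] x)) =
      (A ∩ T^[k] ⁻¹' B).indicator (fun _ => (1 : ℝ)) := by
    funext x
    by_cases h1 : x ∈ A <;> by_cases h2 : T^[k] x ∈ B <;> simp [Set.indicator, h1, h2]
  rw [this, integral_indicator (hA.inter (iter_meas hT k hB))]
  simp

omit hT in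
lemma integral_ind {A : Set X} (hA : MeasurableSet A) : ∫ x, ind A x ∂μ = μ.real A := by
  unfold ind
  rw [integral_indicator hA]
  simp

end

end Pool.Agent.NH63.OverRec
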