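import Mathlib
import Pool.Agent.NH63.OverRec

set_option autoImplicit false
set_option linter.unusedSectionVars false
set_option linter.unusedVariables false
open MeasureTheory Filter Topology

namespace Pool.Agent.NH63.OverRec

variable {X : Type*} [MeasurableSpace X]
variable {μ : Measure X} [IsProbabilityMeasure μ] {T : X → X} (hT : MeasurePreserving T μ μ)

/-- Mixing for sets, with real values. -/
def MixSets (μ : Measure X) (T : X → X) : Prop :=
  ∀ A B : Set X, MeasurableSet A → MeasurableSet B →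
    Tendsto (fun n : ℕ => μ.real (A ∩ T^[n] ⁻¹' B)) atTop (𝓝 (μ.real A * μ.real B))

/-- The points which hit `A` during the times `0, ..., h - 1`. -/
def hitSet (T : X → X) (A : Set X) (h : ℕ) : Set X := ⋃ l : Fin h, T^[l] ⁻¹' A

omit [MeasurableSpace X] in
lemma mem_hitSet {A : Set X} {h : ℕ} {x : X} : x ∈ hitSet T A h ↔ ∃ l < h, T^[l] x ∈ A := by
  unfold hitSet
  simp only [Set.mem_iUnion, Set.mem_preimage]
  constructor
  · rintro ⟨l, hl⟩
    exact ⟨l, l.2, hl⟩
  · rintro ⟨l, hl, h2⟩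
    exact ⟨⟨l, hl⟩, h2⟩

include hT

lemma hitSet_meas {A : Set X} (hA : MeasurableSet A) (h : ℕ) : MeasurableSet (hitSet T A h) :=
  MeasurableSet.iUnion fun l => iter_meas hT _ hA

lemma real_preimage {A : Set X} (hA : MeasurableSet A) (k : ℕ) :
    μ.real (T^[k] ⁻¹' A) = μ.real A :=
  (hT.iterate k).measureReal_preimage hA.nullMeasurableSet

lemma hitSet_le {A : Set X} (hA : MeasurableSet A) (h : ℕ) :
    μ.real (hitSet T A h) ≤ h * μ.real A := by
  unfold hitSet
  refine (measureReal_iUnion_fintype_le _).trans ?_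
  simp [real_preimage hT hA]

lemma small_sets (hmix : MixSets μ T) (hne : ∃ A : Set X, MeasurableSet A ∧ 0 < μ.real A ∧ μ.real A < 1)
    {δ : ℝ} (hδ : 0 < δ) : ∃ A : Set X, MeasurableSet A ∧ 0 < μ.real A ∧ μ.real A ≤ δ := by
  obtain ⟨A₀, hA₀, h0, h1⟩ := hne
  set a := μ.real A₀ with ha
  set θ := (1 + a) / 2 with hθ
  have hθ1 : θ < 1 := by rw [hθ]; linarith
  have haθ : a < θ := by rw [hθ]; linarith
  have hθ0 : 0 < θ := h0.trans haθ
  have key : ∀ n : ℕ, ∃ A : Set X, MeasurableSet A ∧ 0 < μ.real A ∧ μ.real A ≤ a * θ ^ n := by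
    intro n
    induction n with
    | zero => exact ⟨A₀, hA₀, h0, by simp [← ha]⟩
    | succ n ih =>
      obtain ⟨A, hA, hA0, hA1⟩ := ih
      have hAa : μ.real A ≤ a := hA1.trans (by
        have := pow_le_one₀ (n := n) hθ0.le hθ1.le
        nlinarith)
      have ht := hmix A A hA hA
      have e1 : ∀ᶠ k : ℕ in atTop, 0 < μ.real (A ∩ T^[k] ⁻¹' A) :=
        ht.eventually (lt_mem_nhds (by positivity))
      have e2 : ∀ᶠ k : ℕ in atTop, μ.real (A ∩ T^[k] ⁻¹' A) < θ * μ.real A :=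
        ht.eventually (gt_mem_nhds (by nlinarith))
      obtain ⟨k, hk1, hk2⟩ := (e1.and e2).exists
      refine ⟨A ∩ T^[k] ⁻¹' A, hA.inter (iter_meas hT k hA), hk1, ?_⟩
      rw [pow_succ]
      nlinarith
  obtain ⟨n, hn⟩ := exists_pow_lt_of_lt_one hδ hθ1
  obtain ⟨A, hA, hA0, hA1⟩ := key n
  refine ⟨A, hA, hA0, hA1.trans ?_⟩
  have : 0 < θ ^ n := by positivity
  nlinarith

lemma hit_all (hmix : MixSets μ T) {A : Set X} (hA : MeasurableSet A) (h0 : 0 < μ.real A) {m : ℝ}
    (hm : m < 1) : ∃ h : ℕ, m ≤ μ.real (hitSet T A h) := by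
  set F : Set X := (⋃ h : ℕ, hitSet T A h)ᶜ with hF
  have hUm : MeasurableSet (⋃ h : ℕ, hitSet T A h) := MeasurableSet.iUnion fun h => hitSet_meas hT hA h
  have hFm : MeasurableSet F := hUm.compl
  have hemp : ∀ n : ℕ, F ∩ T^[n] ⁻¹' A = ∅ := by
    intro n
    ext x
    simp only [Set.mem_inter_iff, Set.mem_preimage, Set.mem_empty_iff_false, iff_false, not_and]
    intro hx hxA
    apply hx
    exact Set.mem_iUnion.2 ⟨n + 1, mem_hitSet.2 ⟨n, by omega, hxA⟩⟩
  have hz : μ.real F * μ.real A = 0 := by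
    refine tendsto_nhds_unique (hmix F A hFm hA) ?_
    simp only [hemp, measureReal_empty]
    exact tendsto_const_nhds
  have hF0 : μ.real F = 0 := by
    rcases mul_eq_zero.1 hz with h | h
    · exact h
    · exact absurd h h0.ne'
  have hU1 : μ.real (⋃ h : ℕ, hitSet T A h) = 1 := by
    have := probReal_compl_eq_one_sub (μ := μ) hUm
    rw [← hF, hF0] at this
    linarith
  have hmono : Monotone (hitSet T A) := by
    intro a b hab x hx
    obtain ⟨l, hl, hx⟩ := mem_hitSet.1 hx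
    exact mem_hitSet.2 ⟨l, hl.trans_le hab, hx⟩
  have ht : Tendsto (fun h => μ.real (hitSet T A h)) atTop (𝓝 (μ.real (⋃ h : ℕ, hitSet T A h))) := by
    have := tendsto_measure_iUnion_atTop (μ := μ) hmono
    exact (ENNReal.tendsto_toReal (measure_ne_top μ _)).comp this
  rw [hU1] at ht
  obtain ⟨h, hh⟩ := (ht.eventually (lt_mem_nhds hm)).exists
  exact ⟨h, hh.le⟩

/-- Almost invariant sets of prescribed measure. -/
lemma exists_slow (hmix : MixSets μ T) {A : Set X} (hA : MeasurableSet A) (h0 : 0 < μ.real A) {m : ℝ}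
    (hm0 : 0 < m) (hm : m < 1) : ∃ h : ℕ, m ≤ μ.real (hitSet T A h) ∧
      μ.real (hitSet T A h) ≤ m + μ.real A := by
  classical
  have hex := hit_all hT hmix hA h0 hm
  refine ⟨Nat.find hex, Nat.find_spec hex, ?_⟩
  have hpos : Nat.find hex ≠ 0 := by
    intro h
    have h1 := Nat.find_spec hex
    rw [h] at h1
    have h2 := hitSet_le hT hA 0
    simp only [Nat.cast_zero, zero_mul] at h2
    linarith
  obtain ⟨n, hn⟩ := Nat.exists_eq_succ_of_ne_zero hpos
  have h1 : μ.real (hitSet T A n) < m := by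
    have := Nat.find_min hex (m := n) (by omega)
    exact not_le.1 this
  rw [hn]
  have hsub : hitSet T A (n + 1) ⊆ hitSet T A n ∪ T^[n] ⁻¹' A := by
    intro x hx
    obtain ⟨l, hl, hx⟩ := mem_hitSet.1 hx
    rcases Nat.lt_succ_iff_lt_or_eq.1 hl with h | h
    · exact Or.inl (mem_hitSet.2 ⟨l, h, hx⟩)
    · exact Or.inr (by rw [← h]; exact hx)
  have h2 : μ.real (hitSet T A (n + 1)) ≤ μ.real (hitSet T A n) + μ.real (T^[n] ⁻¹' A) :=
    (measureReal_mono hsub).trans (measureReal_union_le _ _)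
  rw [real_preimage hT hA] at h2
  have : μ.real (hitSet T A n.succ) = μ.real (hitSet T A (n + 1)) := rfl
  linarith

lemma slow_diff {A : Set X} (hA : MeasurableSet A) (h k : ℕ) :
    μ.real (hitSet T A h \ T^[k] ⁻¹' hitSet T A h) ≤ k * μ.real A := by
  refine le_trans (measureReal_mono ?_) (hitSet_le hT hA k)
  rintro x ⟨hx1, hx2⟩
  obtain ⟨l, hl, hx⟩ := mem_hitSet.1 hx1
  refine mem_hitSet.2 ⟨l, ?_, hx⟩
  by_contra hlk
  push Not at hlk
  apply hx2
  refine mem_hitSet.2 ⟨l - k, by omega, ?_⟩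
  rw [← Function.iterate_add_apply, Nat.sub_add_cancel hlk]
  exact hx

lemma slow_inter {A : Set X} (hA : MeasurableSet A) (h k : ℕ) :
    μ.real (hitSet T A h) - k * μ.real A ≤ μ.real (hitSet T A h ∩ T^[k] ⁻¹' hitSet T A h) := by
  have h1 := measureReal_inter_add_sdiff (μ := μ) (s := hitSet T A h)
    (iter_meas hT k (hitSet_meas hT hA h))
  have h2 := slow_diff hT hA h k
  linarith

lemma slow_L1 {A : Set X} (hA : MeasurableSet A) (h j : ℕ) :
    ∫ x, |ind (hitSet T A h) (T^[j] x) - ind (hitSet T A h) x| ∂μ ≤ 2 * (j * μ.real A) := by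
  set E := hitSet T A h with hE
  have hEm : MeasurableSet E := hitSet_meas hT hA h
  have hpm : MeasurableSet (T^[j] ⁻¹' E) := iter_meas hT j hEm
  have e : (fun x => |ind E (T^[j] x) - ind E x|) =
      fun x => ind (E \ T^[j] ⁻¹' E) x + ind (T^[j] ⁻¹' E \ E) x := by
    funext x
    unfold ind
    by_cases h1 : x ∈ E <;> by_cases h2 : T^[j] x ∈ E <;> simp [Set.indicator, h1, h2]
  rw [e, integral_add ((ind_bd (hEm.diff hpm)).integrable μ) ((ind_bd (hpm.diff hEm)).integrable μ),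
    integral_ind (hEm.diff hpm), integral_ind (hpm.diff hEm)]
  have h1 := slow_diff hT hA h j
  rw [← hE] at h1
  have h2 := measureReal_inter_add_sdiff (μ := μ) (s := E) hpm
  have h3 := measureReal_inter_add_sdiff (μ := μ) (s := T^[j] ⁻¹' E) hEm
  rw [Set.inter_comm, real_preimage hT hEm] at h3
  linarith

end Pool.Agent.NH63.OverRec
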