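import Mathlib
import Pool.Agent.NH63.OverRec2

set_option autoImplicit false
set_option linter.unusedSectionVars false
set_option linter.unusedVariables false
open MeasureTheory Filter Topology

namespace Pool.Agent.NH63.OverRec

variable {X : Type*} [MeasurableSpace X]
variable {μ : Measure X} [IsProbabilityMeasure μ] {T : X → X} (hT : MeasurePreserving T μ μ)

/-- Birkhoff sums. -/
noncomputable def bsum (T : X → X) (G : X → ℝ) (p : ℕ) (x : X) : ℝ :=
  ∑ j ∈ Finset.range p, G (T^[j] x)

include hT

lemma bsum_bd {G : X → ℝ} (hG : Bd G) (p : ℕ) : Bd (bsum T G p) := by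
  unfold bsum
  induction p with
  | zero => simpa using const_bd (X := X) 0
  | succ p ih =>
    simp only [Finset.sum_range_succ]
    exact ih.add (hG.comp (iter_meas hT p))

lemma prod_corr {G : X → ℝ} (hG : Bd G) {i j : ℕ} (hij : i ≤ j) :
    ∫ x, G (T^[i] x) * G (T^[j] x) ∂μ = corr μ T G G (j - i) := by
  unfold corr
  have h := integral_iter hT (f := fun x => G x * G (T^[j - i] x))
    (hG.mul (hG.comp (iter_meas hT (j - i)))).1 i
  rw [← h]
  congr 1
  funext x
  rw [← Function.iterate_add_apply, Nat.sub_add_cancel hij]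

lemma bsum_sq {G : X → ℝ} (hG : Bd G) (p : ℕ) :
    ∫ x, bsum T G p x ^ 2 ∂μ ≤ 2 * p * ∑ k ∈ Finset.range p, |corr μ T G G k| := by
  have e : (fun x => bsum T G p x ^ 2) =
      fun x => ∑ i ∈ Finset.range p, ∑ j ∈ Finset.range p, G (T^[i] x) * G (T^[j] x) := by
    funext x
    unfold bsum
    rw [sq, Finset.sum_mul_sum]
  have hint : ∀ i j : ℕ, Integrable (fun x => G (T^[i] x) * G (T^[j] x)) μ := fun i j =>
    ((hG.comp (iter_meas hT i)).mul (hG.comp (iter_meas hT j))).integrable μ
  rw [e, integral_finsetSum _ fun i _ => integrable_finsetSum _ fun j _ => hint i j]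
  have h1 : ∀ i ∈ Finset.range p, ∫ x, ∑ j ∈ Finset.range p, G (T^[i] x) * G (T^[j] x) ∂μ ≤
      2 * ∑ k ∈ Finset.range p, |corr μ T G G k| := by
    intro i hi
    rw [integral_finsetSum _ fun j _ => hint i j]
    have h2 : ∀ j ∈ Finset.range p, ∫ x, G (T^[i] x) * G (T^[j] x) ∂μ ≤
        (if j ≤ i then |corr μ T G G (i - j)| else 0) +
        (if i ≤ j then |corr μ T G G (j - i)| else 0) := by
      intro j _
      rcases le_total i j with h | h
      · rw [prod_corr hT hG h, if_pos h]
        have : 0 ≤ (if j ≤ i then |corr μ T G G (i - j)| else 0) := by split_ifs <;> positivity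
        have := le_abs_self (corr μ T G G (j - i))
        linarith
      · have e3 : ∫ x, G (T^[i] x) * G (T^[j] x) ∂μ = corr μ T G G (i - j) := by
          rw [← prod_corr hT hG h]
          congr 1
          funext x
          ring
        rw [e3, if_pos h]
        have : 0 ≤ (if i ≤ j then |corr μ T G G (j - i)| else 0) := by split_ifs <;> positivity
        have := le_abs_self (corr μ T G G (i - j))
        linarith
    refine (Finset.sum_le_sum h2).trans ?_
    rw [Finset.sum_add_distrib, two_mul]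
    refine add_le_add ?_ ?_
    · rw [← Finset.sum_filter]
      have hinj : Set.InjOn (fun j => i - j) ((Finset.range p).filter (fun j => j ≤ i)) := by
        intro a ha b hb hab
        simp only [Finset.coe_filter, Finset.mem_range, Set.mem_ofPred_eq] at ha hb hab
        omega
      rw [← Finset.sum_image (f := fun k => |corr μ T G G k|) hinj]
      refine Finset.sum_le_sum_of_subset_of_nonneg ?_ fun _ _ _ => abs_nonneg _
      intro k hk
      simp only [Finset.mem_image, Finset.mem_filter, Finset.mem_range] at hk ⊢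
      have := Finset.mem_range.1 hi
      omega
    · rw [← Finset.sum_filter]
      have hinj : Set.InjOn (fun j => j - i) ((Finset.range p).filter (fun j => i ≤ j)) := by
        intro a ha b hb hab
        simp only [Finset.coe_filter, Finset.mem_range, Set.mem_ofPred_eq] at ha hb hab
        omega
      rw [← Finset.sum_image (f := fun k => |corr μ T G G k|) hinj]
      refine Finset.sum_le_sum_of_subset_of_nonneg ?_ fun _ _ _ => abs_nonneg _
      intro k hk
      simp only [Finset.mem_image, Finset.mem_filter, Finset.mem_range] at hk ⊢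
      omega
  refine (Finset.sum_le_sum h1).trans ?_
  rw [Finset.sum_const, Finset.card_range, nsmul_eq_mul]
  exact le_of_eq (by ring)

/-- The mean ergodic theorem for functions with vanishing correlations. -/
lemma mean_small {G : X → ℝ} (hG : Bd G) (hc : Tendsto (corr μ T G G) atTop (𝓝 0)) {η : ℝ}
    (hη : 0 < η) : ∃ p : ℕ, 0 < p ∧ ∫ x, |bsum T G p x| ∂μ ≤ p * η := by
  have h1 : Tendsto (fun p : ℕ => (p : ℝ)⁻¹ * ∑ k ∈ Finset.range p, |corr μ T G G k|) atTop (𝓝 0) := by
    have h0 : Tendsto (fun k => |corr μ T G G k|) atTop (𝓝 0) := by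
      have := hc.abs
      rwa [abs_zero] at this
    exact h0.cesaro
  have h2 : ∀ᶠ p : ℕ in atTop, (p : ℝ)⁻¹ * ∑ k ∈ Finset.range p, |corr μ T G G k| < η ^ 2 / 2 :=
    h1.eventually (gt_mem_nhds (by positivity))
  obtain ⟨p, hp, hp1⟩ := (h2.and (eventually_ge_atTop 1)).exists
  have hp0 : (0 : ℝ) < p := by exact_mod_cast hp1
  refine ⟨p, by omega, ?_⟩
  have h3 := bsum_sq hT hG p
  have h4 : ∑ k ∈ Finset.range p, |corr μ T G G k| < p * (η ^ 2 / 2) := by
    rw [inv_mul_lt_iff₀ hp0] at hp
    exact hp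
  have h5 : ∫ x, bsum T G p x ^ 2 ∂μ ≤ p ^ 2 * η ^ 2 := by nlinarith
  have hb := bsum_bd hT hG p
  have hint : Integrable (fun x => bsum T G p x ^ 2) μ := by
    have := (hb.mul hb).integrable μ
    simpa [sq] using this
  have h6 : ∫ x, |bsum T G p x| ∂μ ≤ ∫ x, ((p * η)⁻¹ / 2 * bsum T G p x ^ 2 + p * η / 2) ∂μ := by
    refine integral_mono ((hb.integrable μ).abs) ((hint.const_mul _).add (integrable_const _)) ?_
    intro x
    have hpη : 0 < (p : ℝ) * η := by positivity
    have h7 : 0 ≤ (|bsum T G p x| - p * η) ^ 2 := sq_nonneg _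
    have h8 : |bsum T G p x| ^ 2 = bsum T G p x ^ 2 := sq_abs _
    have h9 : 2 * (p * η) * |bsum T G p x| ≤ bsum T G p x ^ 2 + (p * η) ^ 2 := by nlinarith
    change |bsum T G p x| ≤ (p * η)⁻¹ / 2 * bsum T G p x ^ 2 + p * η / 2
    have h10 : (p * η)⁻¹ / 2 * (2 * (p * η) * |bsum T G p x|) ≤
        (p * η)⁻¹ / 2 * (bsum T G p x ^ 2 + (p * η) ^ 2) :=
      mul_le_mul_of_nonneg_left h9 (by positivity)
    have e1 : (p * η)⁻¹ / 2 * (2 * (p * η) * |bsum T G p x|) = |bsum T G p x| := by
      field_simp
    have e2 : (p * η)⁻¹ / 2 * (bsum T G p x ^ 2 + (p * η) ^ 2) =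
        (p * η)⁻¹ / 2 * bsum T G p x ^ 2 + p * η / 2 := by
      field_simp
    linarith
  rw [integral_add (hint.const_mul _) (integrable_const _), integral_const_mul] at h6
  simp only [integral_const, probReal_univ, one_smul] at h6
  have h11 : (p * η)⁻¹ / 2 * ∫ x, bsum T G p x ^ 2 ∂μ ≤ (p * η)⁻¹ / 2 * (p ^ 2 * η ^ 2) :=
    mul_le_mul_of_nonneg_left h5 (by positivity)
  have e3 : ((p : ℝ) * η)⁻¹ / 2 * (p ^ 2 * η ^ 2) = p * η / 2 := by
    field_simp
  linarith

lemma cross_left {G : X → ℝ} (hG : Bd G) {C : ℝ} (hC : ∀ x, |G x| ≤ C) {E : Set X}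
    (hE : MeasurableSet E) {p : ℕ} {D : ℝ}
    (hD : ∀ j < p, ∫ x, |ind E (T^[j] x) - ind E x| ∂μ ≤ D) (k : ℕ) :
    p * |corr μ T G (ind E) k| ≤ ∫ x, |bsum T G p x| ∂μ + p * (C * D) := by
  have hind := ind_bd hE
  have hb := bsum_bd hT hG p
  have h1 : ∀ j, corr μ T G (ind E) k = ∫ x, G (T^[j] x) * ind E (T^[k] x) ∂μ +
      ∫ x, G (T^[j] x) * (ind E (T^[j] (T^[k] x)) - ind E (T^[k] x)) ∂μ := by
    intro j
    rw [← integral_add]
    · unfold corr
      rw [← integral_iter hT (f := fun x => G x * ind E (T^[k] x))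
        (hG.mul (hind.comp (iter_meas hT k))).1 j]
      congr 1
      funext x
      have : T^[k] (T^[j] x) = T^[j] (T^[k] x) := by
        rw [← Function.iterate_add_apply, ← Function.iterate_add_apply, add_comm]
      rw [this]
      ring
    · exact ((hG.comp (iter_meas hT j)).mul (hind.comp (iter_meas hT k))).integrable μ
    · have h2 := (hG.comp (iter_meas hT j)).mul
        (((hind.comp (iter_meas hT j)).comp (iter_meas hT k)).add
          ((hind.comp (iter_meas hT k)).const_mul (-1)))
      refine (h2.integrable μ).congr (Eventually.of_forall fun x => ?_)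
      simp only
      ring
  have h2 : ∀ j < p, |∫ x, G (T^[j] x) * (ind E (T^[j] (T^[k] x)) - ind E (T^[k] x)) ∂μ| ≤ C * D := by
    intro j hj
    have hC0 : 0 ≤ C := (abs_nonneg _).trans (hC (Classical.choice (by
      by_contra hX
      rw [not_nonempty_iff] at hX
      have := measure_univ (μ := μ)
      rw [Set.univ_eq_empty_iff.2 hX, measure_empty] at this
      exact zero_ne_one this)))
    refine (abs_integral_le_integral_abs).trans ?_
    have hdiff : Bd (fun x => ind E (T^[j] x) - ind E x) := by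
      have := (hind.comp (iter_meas hT j)).add (hind.const_mul (-1))
      simpa [sub_eq_add_neg] using this
    have habs : Integrable (fun x => |ind E (T^[j] x) - ind E x|) μ := (hdiff.integrable μ).abs
    have h3 : ∫ x, |G (T^[j] x) * (ind E (T^[j] (T^[k] x)) - ind E (T^[k] x))| ∂μ ≤
        ∫ x, C * |ind E (T^[j] (T^[k] x)) - ind E (T^[k] x)| ∂μ := by
      refine integral_mono ?_ ?_ ?_
      · exact (((hG.comp (iter_meas hT j)).mul (hdiff.comp (iter_meas hT k))).integrable μ).abs
      · exact (((hdiff.comp (iter_meas hT k)).integrable μ).abs).const_mul C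
      · intro x
        simp only
        rw [abs_mul]
        exact mul_le_mul_of_nonneg_right (hC _) (abs_nonneg _)
    refine h3.trans ?_
    rw [integral_const_mul]
    refine mul_le_mul_of_nonneg_left ?_ hC0
    have h4 := integral_iter hT (f := fun x => |ind E (T^[j] x) - ind E x|)
      (hdiff.1.abs) k
    rw [h4]
    exact hD j hj
  have h3 : (p : ℝ) * corr μ T G (ind E) k = ∫ x, bsum T G p x * ind E (T^[k] x) ∂μ +
      ∑ j ∈ Finset.range p, ∫ x, G (T^[j] x) * (ind E (T^[j] (T^[k] x)) - ind E (T^[k] x)) ∂μ := by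
    have e : (fun x => bsum T G p x * ind E (T^[k] x)) =
        fun x => ∑ j ∈ Finset.range p, G (T^[j] x) * ind E (T^[k] x) := by
      funext x
      unfold bsum
      rw [Finset.sum_mul]
    rw [e, integral_finsetSum _ fun j _ =>
      ((hG.comp (iter_meas hT j)).mul (hind.comp (iter_meas hT k))).integrable μ,
      ← Finset.sum_add_distrib, ← Finset.sum_congr rfl fun j _ => h1 j]
    simp
  have h4 : |∫ x, bsum T G p x * ind E (T^[k] x) ∂μ| ≤ ∫ x, |bsum T G p x| ∂μ := by
    refine (abs_integral_le_integral_abs).trans ?_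
    refine integral_mono ((hb.mul (hind.comp (iter_meas hT k))).integrable μ).abs
      (hb.integrable μ).abs ?_
    intro x
    simp only
    rw [abs_mul, abs_of_nonneg (ind_nonneg E _)]
    have := ind_le_one E (T^[k] x)
    have := abs_nonneg (bsum T G p x)
    nlinarith
  have h5 : |∑ j ∈ Finset.range p,
      ∫ x, G (T^[j] x) * (ind E (T^[j] (T^[k] x)) - ind E (T^[k] x)) ∂μ| ≤ p * (C * D) := by
    refine (Finset.abs_sum_le_sum_abs _ _).trans ?_
    refine (Finset.sum_le_sum fun j hj => h2 j (Finset.mem_range.1 hj)).trans ?_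
    simp
  have h6 : (p : ℝ) * |corr μ T G (ind E) k| = |(p : ℝ) * corr μ T G (ind E) k| := by
    rw [abs_mul, Nat.abs_cast]
  rw [h6, h3]
  exact (abs_add_le _ _).trans (add_le_add h4 h5)

lemma cross_right {G : X → ℝ} (hG : Bd G) {C : ℝ} (hC : ∀ x, |G x| ≤ C) {E : Set X}
    (hE : MeasurableSet E) {p : ℕ} {D : ℝ}
    (hD : ∀ j < p, ∫ x, |ind E (T^[j] x) - ind E x| ∂μ ≤ D) (k : ℕ) :
    p * |corr μ T (ind E) G k| ≤ ∫ x, |bsum T G p x| ∂μ + p * (C * D) := by
  have hind := ind_bd hE
  have hb := bsum_bd hT hG p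
  have hC0 : 0 ≤ C := (abs_nonneg _).trans (hC (Classical.choice (by
      by_contra hX
      rw [not_nonempty_iff] at hX
      have := measure_univ (μ := μ)
      rw [Set.univ_eq_empty_iff.2 hX, measure_empty] at this
      exact zero_ne_one this)))
  have hcomm : ∀ (j : ℕ) (x : X), T^[k] (T^[j] x) = T^[j] (T^[k] x) := by
    intro j x
    rw [← Function.iterate_add_apply, ← Function.iterate_add_apply, add_comm]
  have hdiff : ∀ j, Bd (fun x => ind E (T^[j] x) - ind E x) := by
    intro j
    have := (hind.comp (iter_meas hT j)).add (hind.const_mul (-1))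
    simpa [sub_eq_add_neg] using this
  have h1 : ∀ j, corr μ T (ind E) G k = ∫ x, ind E x * G (T^[j] (T^[k] x)) ∂μ +
      ∫ x, (ind E (T^[j] x) - ind E x) * G (T^[j] (T^[k] x)) ∂μ := by
    intro j
    rw [← integral_add]
    · unfold corr
      rw [← integral_iter hT (f := fun x => ind E x * G (T^[k] x))
        (hind.mul (hG.comp (iter_meas hT k))).1 j]
      congr 1
      funext x
      rw [hcomm j x]
      ring
    · exact (hind.mul ((hG.comp (iter_meas hT j)).comp (iter_meas hT k))).integrable μ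
    · exact ((hdiff j).mul ((hG.comp (iter_meas hT j)).comp (iter_meas hT k))).integrable μ
  have h2 : ∀ j < p, |∫ x, (ind E (T^[j] x) - ind E x) * G (T^[j] (T^[k] x)) ∂μ| ≤ C * D := by
    intro j hj
    refine (abs_integral_le_integral_abs).trans ?_
    have h3 : ∫ x, |(ind E (T^[j] x) - ind E x) * G (T^[j] (T^[k] x))| ∂μ ≤
        ∫ x, C * |ind E (T^[j] x) - ind E x| ∂μ := by
      refine integral_mono ?_ ?_ ?_
      · exact (((hdiff j).mul ((hG.comp (iter_meas hT j)).comp (iter_meas hT k))).integrable μ).abs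
      · exact (((hdiff j).integrable μ).abs).const_mul C
      · intro x
        simp only
        rw [abs_mul, mul_comm]
        exact mul_le_mul_of_nonneg_right (hC _) (abs_nonneg _)
    refine h3.trans ?_
    rw [integral_const_mul]
    exact mul_le_mul_of_nonneg_left (hD j hj) hC0
  have h3 : (p : ℝ) * corr μ T (ind E) G k = ∫ x, ind E x * bsum T G p (T^[k] x) ∂μ +
      ∑ j ∈ Finset.range p, ∫ x, (ind E (T^[j] x) - ind E x) * G (T^[j] (T^[k] x)) ∂μ := by
    have e : (fun x => ind E x * bsum T G p (T^[k] x)) =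
        fun x => ∑ j ∈ Finset.range p, ind E x * G (T^[j] (T^[k] x)) := by
      funext x
      unfold bsum
      rw [Finset.mul_sum]
    rw [e, integral_finsetSum _ fun j _ =>
      (hind.mul ((hG.comp (iter_meas hT j)).comp (iter_meas hT k))).integrable μ,
      ← Finset.sum_add_distrib, ← Finset.sum_congr rfl fun j _ => h1 j]
    simp
  have h4 : |∫ x, ind E x * bsum T G p (T^[k] x) ∂μ| ≤ ∫ x, |bsum T G p x| ∂μ := by
    refine (abs_integral_le_integral_abs).trans ?_
    have h7 : ∫ x, |ind E x * bsum T G p (T^[k] x)| ∂μ ≤ ∫ x, |bsum T G p (T^[k] x)| ∂μ := by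
      refine integral_mono ((hind.mul (hb.comp (iter_meas hT k))).integrable μ).abs
        ((hb.comp (iter_meas hT k)).integrable μ).abs ?_
      intro x
      simp only
      rw [abs_mul, abs_of_nonneg (ind_nonneg E _)]
      have := ind_le_one E x
      have := abs_nonneg (bsum T G p (T^[k] x))
      nlinarith
    refine h7.trans (le_of_eq ?_)
    exact integral_iter hT (f := fun x => |bsum T G p x|) hb.1.abs k
  have h5 : |∑ j ∈ Finset.range p,
      ∫ x, (ind E (T^[j] x) - ind E x) * G (T^[j] (T^[k] x)) ∂μ| ≤ p * (C * D) := by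
    refine (Finset.abs_sum_le_sum_abs _ _).trans ?_
    refine (Finset.sum_le_sum fun j hj => h2 j (Finset.mem_range.1 hj)).trans ?_
    simp
  have h6 : (p : ℝ) * |corr μ T (ind E) G k| = |(p : ℝ) * corr μ T (ind E) G k| := by
    rw [abs_mul, Nat.abs_cast]
  rw [h6, h3]
  exact (abs_add_le _ _).trans (add_le_add h4 h5)

end Pool.Agent.NH63.OverRec
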