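import Mathlib
import Pool.Agent.NH63.OverRec3

set_option autoImplicit false
set_option linter.unusedSectionVars false
set_option linter.unusedVariables false
open MeasureTheory Filter Topology

namespace Pool.Agent.NH63.OverRec

variable {X : Type*} [MeasurableSpace X]
variable {μ : Measure X} [IsProbabilityMeasure μ] {T : X → X} (hT : MeasurePreserving T μ μ)

/-- The class of functions used in the construction. -/
structure Good (μ : Measure X) (T : X → X) (G : X → ℝ) : Prop where
  bd : Bd G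
  mean : ∫ x, G x ∂μ = 0
  left : ∀ E, MeasurableSet E → Tendsto (corr μ T G (ind E)) atTop (𝓝 0)
  right : ∀ E, MeasurableSet E → Tendsto (corr μ T (ind E) G) atTop (𝓝 0)
  auto : Tendsto (corr μ T G G) atTop (𝓝 0)

/-- The new function `G + e (1_E - μ E)`. -/
noncomputable def upd (μ : Measure X) (G : X → ℝ) (e : ℝ) (E : Set X) (x : X) : ℝ :=
  G x + e * (ind E x - μ.real E)

include hT

lemma good_zero : Good μ T (fun _ => (0 : ℝ)) := by
  refine ⟨const_bd 0, by simp, fun E hE => ?_, fun E hE => ?_, ?_⟩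
  · unfold corr; simp
  · unfold corr; simp
  · unfold corr; simp

lemma cent_bd {E : Set X} (hE : MeasurableSet E) (e : ℝ) :
    Bd (fun x => e * (ind E x - μ.real E)) := ((ind_bd hE).sub_const _).const_mul e

lemma upd_bd {G : X → ℝ} (hG : Bd G) (e : ℝ) {E : Set X} (hE : MeasurableSet E) :
    Bd (upd μ G e E) := hG.add (cent_bd hT hE e)

/-- The correlations of `e (1_E - μ E)` with a function of mean zero. -/
lemma corr_cent_right {G : X → ℝ} (hG : Bd G) (h0 : ∫ x, G x ∂μ = 0) (e : ℝ) {E : Set X}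
    (hE : MeasurableSet E) (k : ℕ) :
    corr μ T G (fun x => e * (ind E x - μ.real E)) k = e * corr μ T G (ind E) k := by
  rw [corr_mul_right]
  congr 1
  have := corr_add_right hT hG (ind_bd hE) (const_bd (-μ.real E)) k
  rw [corr_const_right, h0, mul_zero, add_zero] at this
  rw [← this]
  congr 1

lemma corr_cent_left {G : X → ℝ} (hG : Bd G) (h0 : ∫ x, G x ∂μ = 0) (e : ℝ) {E : Set X}
    (hE : MeasurableSet E) (k : ℕ) :
    corr μ T (fun x => e * (ind E x - μ.real E)) G k = e * corr μ T (ind E) G k := by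
  rw [corr_mul_left]
  congr 1
  have := corr_add_left hT (ind_bd hE) (const_bd (-μ.real E)) hG k
  rw [corr_const_left hT hG.1, h0, mul_zero, add_zero] at this
  rw [← this]
  congr 1

lemma corr_cent_ind (e : ℝ) {E F : Set X} (hE : MeasurableSet E) (hF : MeasurableSet F) (k : ℕ) :
    corr μ T (fun x => e * (ind E x - μ.real E)) (ind F) k =
      e * (μ.real (E ∩ T^[k] ⁻¹' F) - μ.real E * μ.real F) := by
  rw [corr_mul_left]
  congr 1
  have := corr_add_left hT (ind_bd hE) (const_bd (-μ.real E)) (ind_bd hF) k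
  rw [corr_const_left hT (ind_bd hF).1, corr_ind hT hE hF, integral_ind hF] at this
  have e1 : corr μ T (fun x => ind E x - μ.real E) (ind F) k =
      corr μ T (fun x => ind E x + -μ.real E) (ind F) k := by congr 1
  rw [e1, this]
  ring

lemma corr_ind_cent (e : ℝ) {E F : Set X} (hE : MeasurableSet E) (hF : MeasurableSet F) (k : ℕ) :
    corr μ T (ind F) (fun x => e * (ind E x - μ.real E)) k =
      e * (μ.real (F ∩ T^[k] ⁻¹' E) - μ.real F * μ.real E) := by
  rw [corr_mul_right]
  congr 1
  have := corr_add_right hT (ind_bd hF) (ind_bd hE) (const_bd (-μ.real E)) k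
  rw [corr_const_right, corr_ind hT hF hE, integral_ind hF] at this
  have e1 : corr μ T (ind F) (fun x => ind E x - μ.real E) k =
      corr μ T (ind F) (fun x => ind E x + -μ.real E) k := by congr 1
  rw [e1, this]
  ring

lemma mean_cent (e : ℝ) {E : Set X} (hE : MeasurableSet E) :
    ∫ x, e * (ind E x - μ.real E) ∂μ = 0 := by
  rw [integral_const_mul, integral_sub ((ind_bd hE).integrable μ) (integrable_const _),
    integral_ind hE]
  simp

lemma corr_cent_cent (e : ℝ) {E : Set X} (hE : MeasurableSet E) (k : ℕ) :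
    corr μ T (fun x => e * (ind E x - μ.real E)) (fun x => e * (ind E x - μ.real E)) k =
      e ^ 2 * (μ.real (E ∩ T^[k] ⁻¹' E) - μ.real E ^ 2) := by
  rw [corr_cent_right hT (cent_bd hT hE e) (mean_cent hT e hE) e hE, corr_cent_ind hT e hE hE]
  ring

lemma corr_upd {G : X → ℝ} (hG : Bd G) (h0 : ∫ x, G x ∂μ = 0) (e : ℝ) {E : Set X}
    (hE : MeasurableSet E) (k : ℕ) :
    corr μ T (upd μ G e E) (upd μ G e E) k = corr μ T G G k +
      e * (corr μ T G (ind E) k + corr μ T (ind E) G k) +
      e ^ 2 * (μ.real (E ∩ T^[k] ⁻¹' E) - μ.real E ^ 2) := by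
  unfold upd
  rw [corr_add_left hT hG (cent_bd hT hE e) (hG.add (cent_bd hT hE e)),
    corr_add_right hT hG hG (cent_bd hT hE e),
    corr_add_right hT (cent_bd hT hE e) hG (cent_bd hT hE e), corr_cent_cent hT e hE,
    corr_cent_right hT hG h0 e hE, corr_cent_left hT hG h0 e hE]
  ring

lemma good_upd (hmix : MixSets μ T) {G : X → ℝ} (hG : Good μ T G) (e : ℝ) {E : Set X}
    (hE : MeasurableSet E) : Good μ T (upd μ G e E) := by
  have mixEE : ∀ F, MeasurableSet F → Tendsto (fun k : ℕ => μ.real (E ∩ T^[k] ⁻¹' F) -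
      μ.real E * μ.real F) atTop (𝓝 0) := by
    intro F hF
    have := (hmix E F hE hF).sub_const (μ.real E * μ.real F)
    rwa [sub_self] at this
  have mixFE : ∀ F, MeasurableSet F → Tendsto (fun k : ℕ => μ.real (F ∩ T^[k] ⁻¹' E) -
      μ.real F * μ.real E) atTop (𝓝 0) := by
    intro F hF
    have := (hmix F E hF hE).sub_const (μ.real F * μ.real E)
    rwa [sub_self] at this
  refine ⟨upd_bd hT hG.bd e hE, ?_, fun F hF => ?_, fun F hF => ?_, ?_⟩
  · unfold upd
    rw [integral_add (hG.bd.integrable μ) ((cent_bd hT hE e).integrable μ), hG.mean,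
      mean_cent hT e hE, add_zero]
  · have h := (hG.left F hF).add ((mixEE F hF).const_mul e)
    simp only [mul_zero, add_zero] at h
    refine h.congr fun k => ?_
    unfold upd
    rw [corr_add_left hT hG.bd (cent_bd hT hE e) (ind_bd hF), corr_cent_ind hT e hE hF]
  · have h := (hG.right F hF).add ((mixFE F hF).const_mul e)
    simp only [mul_zero, add_zero] at h
    refine h.congr fun k => ?_
    unfold upd
    rw [corr_add_right hT (ind_bd hF) hG.bd (cent_bd hT hE e), corr_ind_cent hT e hE hF]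
  · have h := (hG.auto.add (((hG.left E hE).add (hG.right E hE)).const_mul e)).add
      ((mixEE E hE).const_mul (e ^ 2))
    simp only [mul_zero, add_zero] at h
    refine h.congr fun k => ?_
    rw [corr_upd hT hG.bd hG.mean e hE]
    ring

/-- The main step. -/
lemma step (hmix : MixSets μ T)
    (hne : ∃ A : Set X, MeasurableSet A ∧ 0 < μ.real A ∧ μ.real A < 1) {G : X → ℝ}
    (hG : Good μ T G) {e m : ℝ} (he : 0 < e) (he1 : e ≤ 1) (hm : 0 < m) (hm1 : m ≤ 1 / 512)
    (hneg : ∀ k, 1 ≤ k → -(e ^ 2 * m / 8) ≤ corr μ T G G k) :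
    ∃ E : Set X, MeasurableSet E ∧
      (∀ k, 1 ≤ k → -(e ^ 2 * m / 64) ≤ corr μ T (upd μ G e E) (upd μ G e E) k) ∧
      corr μ T G G 0 + e ^ 2 * m / 4 ≤ corr μ T (upd μ G e E) (upd μ G e E) 0 := by
  set τ := e ^ 2 * m / 64 with hτ
  have hτ0 : 0 < τ := by positivity
  obtain ⟨C, hC⟩ := hG.bd.2
  have hX : Nonempty X := by
    by_contra hX
    rw [not_nonempty_iff] at hX
    have := measure_univ (μ := μ)
    rw [Set.univ_eq_empty_iff.2 hX, measure_empty] at this
    exact zero_ne_one this
  have hC0 : 0 ≤ C := (abs_nonneg _).trans (hC (Classical.choice hX))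
  -- mixing time
  obtain ⟨M, hM⟩ := (hG.auto.eventually (lt_mem_nhds (show -(τ / 4) < 0 by linarith))).exists_forall_of_atTop
  -- ergodic averages
  obtain ⟨p, hp0, hp⟩ := mean_small hT hG.bd hG.auto (η := τ / 16) (by positivity)
  have hpr : (0 : ℝ) < p := by exact_mod_cast hp0
  -- small set
  set δ := min (m / (4 * (M + 1))) (τ / (32 * (p * (C + 1)))) with hδ
  have hδ0 : 0 < δ := by
    refine lt_min (by positivity) (by positivity)
  obtain ⟨A, hA, hA0, hA1⟩ := small_sets hT hmix hne hδ0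
  have hAM : (M : ℝ) * μ.real A ≤ m / 4 := by
    have h1 : μ.real A ≤ m / (4 * (M + 1)) := hA1.trans (min_le_left _ _)
    rw [le_div_iff₀ (by positivity)] at h1
    nlinarith
  have hAm : μ.real A ≤ m := by
    have h1 : μ.real A ≤ m / (4 * (M + 1)) := hA1.trans (min_le_left _ _)
    refine h1.trans ?_
    rw [div_le_iff₀ (by positivity)]
    have : (0 : ℝ) ≤ M := Nat.cast_nonneg M
    nlinarith
  have hAp : C * (2 * (p * μ.real A)) ≤ τ / 16 := by
    have h1 : μ.real A ≤ τ / (32 * (p * (C + 1))) := hA1.trans (min_le_right _ _)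
    rw [le_div_iff₀ (by positivity)] at h1
    have : 0 ≤ p * μ.real A := by positivity
    nlinarith
  obtain ⟨h, hh1, hh2⟩ := exists_slow hT hmix hA hA0 hm (by linarith : m < 1)
  set E := hitSet T A h with hE
  have hEm : MeasurableSet E := hitSet_meas hT hA h
  have hD : ∀ j < p, ∫ x, |ind E (T^[j] x) - ind E x| ∂μ ≤ 2 * (p * μ.real A) := by
    intro j hj
    refine (slow_L1 hT hA h j).trans ?_
    have : (j : ℝ) ≤ p := by exact_mod_cast hj.le
    have := mul_le_mul_of_nonneg_right this (measureReal_nonneg (μ := μ) (s := A))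
    linarith
  have hcl : ∀ k, |corr μ T G (ind E) k| ≤ τ / 8 := by
    intro k
    have h1 := cross_left hT hG.bd hC hEm hD k
    have h2 : (p : ℝ) * |corr μ T G (ind E) k| ≤ p * (τ / 8) := by
      refine h1.trans ?_
      have : (p : ℝ) * (C * (2 * (p * μ.real A))) ≤ p * (τ / 16) :=
        mul_le_mul_of_nonneg_left hAp hpr.le
      linarith
    exact le_of_mul_le_mul_left h2 hpr
  have hcr : ∀ k, |corr μ T (ind E) G k| ≤ τ / 8 := by
    intro k
    have h1 := cross_right hT hG.bd hC hEm hD k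
    have h2 : (p : ℝ) * |corr μ T (ind E) G k| ≤ p * (τ / 8) := by
      refine h1.trans ?_
      have : (p : ℝ) * (C * (2 * (p * μ.real A))) ≤ p * (τ / 16) :=
        mul_le_mul_of_nonneg_left hAp hpr.le
      linarith
    exact le_of_mul_le_mul_left h2 hpr
  have hcross : ∀ k, -(τ / 4) ≤ e * (corr μ T G (ind E) k + corr μ T (ind E) G k) := by
    intro k
    have h1 := neg_le_of_abs_le (hcl k)
    have h2 := neg_le_of_abs_le (hcr k)
    nlinarith
  have hE0 : 0 ≤ μ.real E := measureReal_nonneg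
  have hEsq : μ.real E ^ 2 ≤ 4 * m ^ 2 := by nlinarith
  have hm2 : 4 * m ^ 2 ≤ m / 128 := by nlinarith
  have he2 : 0 < e ^ 2 := by positivity
  have hmain : ∀ k ≤ M, e ^ 2 * m / 2 ≤ e ^ 2 * (μ.real (E ∩ T^[k] ⁻¹' E) - μ.real E ^ 2) := by
    intro k hk
    have h1 := slow_inter hT hA h k
    rw [← hE] at h1
    have h2 : (k : ℝ) * μ.real A ≤ M * μ.real A :=
      mul_le_mul_of_nonneg_right (by exact_mod_cast hk) measureReal_nonneg
    have h3 : m / 2 ≤ μ.real (E ∩ T^[k] ⁻¹' E) - μ.real E ^ 2 := by linarith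
    have := mul_le_mul_of_nonneg_left h3 he2.le
    linarith
  refine ⟨E, hEm, fun k hk => ?_, ?_⟩
  · rw [corr_upd hT hG.bd hG.mean e hEm]
    have h1 := hcross k
    rcases le_total k M with hkM | hkM
    · have h2 := hmain k hkM
      have h3 := hneg k hk
      have h4 : e ^ 2 * m / 8 = 8 * τ := by rw [hτ]; ring
      have h5 : e ^ 2 * m / 2 = 32 * τ := by rw [hτ]; ring
      linarith
    · have h2 := (hM k hkM).le
      have h3 : 0 ≤ μ.real (E ∩ T^[k] ⁻¹' E) := measureReal_nonneg
      have h4 : -(τ / 2) ≤ e ^ 2 * (μ.real (E ∩ T^[k] ⁻¹' E) - μ.real E ^ 2) := by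
        have h5 : -(m / 128) ≤ μ.real (E ∩ T^[k] ⁻¹' E) - μ.real E ^ 2 := by linarith
        have := mul_le_mul_of_nonneg_left h5 he2.le
        rw [hτ]
        linarith
      linarith
  · rw [corr_upd hT hG.bd hG.mean e hEm]
    have h1 := hcross 0
    have h2 := hmain 0 (Nat.zero_le _)
    have h5 : e ^ 2 * m / 2 = 32 * τ := by rw [hτ]; ring
    have h6 : e ^ 2 * m / 4 = 16 * τ := by rw [hτ]; ring
    linarith

end Pool.Agent.NH63.OverRec
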