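import Mathlib
import Pool.Agent.NH63.OverRec4

set_option autoImplicit false
set_option linter.unusedSectionVars false
set_option linter.unusedVariables false
open MeasureTheory Filter Topology

namespace Pool.Agent.NH63.OverRec

variable {X : Type*} [MeasurableSpace X]
variable {μ : Measure X} [IsProbabilityMeasure μ] {T : X → X} (hT : MeasurePreserving T μ μ)

include hT

/-- **Main theorem.** A nontrivial mixing system has a bounded function of mean zero, not a.e. zero,
all of whose autocorrelations are nonnegative. -/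
theorem exists_overrecurrent (hmix : MixSets μ T)
    (hne : ∃ A : Set X, MeasurableSet A ∧ 0 < μ.real A ∧ μ.real A < 1) :
    ∃ G : X → ℝ, Measurable G ∧ (∀ x, |G x| ≤ 2) ∧ ∫ x, G x ∂μ = 0 ∧
      0 < corr μ T G G 0 ∧ ∀ k, 0 ≤ corr μ T G G k := by
  set m : ℕ → ℝ := fun i => (1 / 2) ^ i / 512 with hm
  set e : ℕ → ℝ := fun i => (1 / 2) ^ i with he
  have hm0 : ∀ i, 0 < m i := fun i => by positivity
  have he0 : ∀ i, 0 < e i := fun i => by positivity
  have he1 : ∀ i, e i ≤ 1 := fun i => pow_le_one₀ (by norm_num) (by norm_num)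
  have hm1 : ∀ i, m i ≤ 1 / 512 := fun i => by
    have := he1 i
    simp only [hm]
    simp only [he] at this
    linarith
  obtain ⟨g, hP, hR, h0⟩ := exists_seq'
    (P := fun i (G : X → ℝ) => Good μ T G ∧ (∀ x, |G x| ≤ 2 - 2 * e i) ∧
      ∀ k, 1 ≤ k → -(e i ^ 2 * m i / 8) ≤ corr μ T G G k)
    (R := fun i G G' => (∀ x, |G' x - G x| ≤ e i) ∧
      corr μ T G G 0 + e i ^ 2 * m i / 4 ≤ corr μ T G' G' 0)
    (a := fun _ => (0 : ℝ))
    (by
      refine ⟨good_zero hT, fun x => by simp [he], fun k hk => ?_⟩
      have : corr μ T (fun _ => (0 : ℝ)) (fun _ => (0 : ℝ)) k = 0 := by unfold corr; simp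
      rw [this]
      have := hm0 0
      have := he0 0
      have : 0 < e 0 ^ 2 * m 0 / 8 := by positivity
      linarith)
    (by
      rintro i G ⟨hG, hb, hk⟩
      obtain ⟨E, hE, h1, h2⟩ := step hT hmix hne hG (he0 i) (he1 i) (hm0 i) (hm1 i) hk
      have hφ : ∀ x, |upd μ G (e i) E x - G x| ≤ e i := by
        intro x
        unfold upd
        rw [add_sub_cancel_left, abs_mul, abs_of_pos (he0 i)]
        have h3 : |ind E x - μ.real E| ≤ 1 := by
          rw [abs_le]
          have := ind_nonneg E x
          have := ind_le_one E x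
          have := measureReal_nonneg (μ := μ) (s := E)
          have := measureReal_le_one (μ := μ) (s := E)
          constructor <;> linarith
        have := he0 i
        nlinarith
      have hei : e (i + 1) = e i / 2 := by simp only [he]; ring
      have hmi : m (i + 1) = m i / 2 := by simp only [hm]; ring
      refine ⟨upd μ G (e i) E, ⟨good_upd hT hmix hG (e i) hE, fun x => ?_, fun k hk => ?_⟩,
        hφ, h2⟩
      · have h3 := hφ x
        have h4 := hb x
        have h5 : |upd μ G (e i) E x| ≤ |G x| + |upd μ G (e i) E x - G x| := by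
          have := abs_add_le (G x) (upd μ G (e i) E x - G x)
          simpa using this
        rw [hei]
        linarith
      · have := h1 k hk
        rw [hei, hmi]
        have e3 : (e i / 2) ^ 2 * (m i / 2) / 8 = e i ^ 2 * m i / 64 := by ring
        rw [e3]
        exact this)
  have hdist : ∀ (x : X) (i : ℕ), dist (g i x) (g (i + 1) x) ≤ 1 * (1 / 2 : ℝ) ^ i := by
    intro x i
    rw [dist_comm, Real.dist_eq, one_mul]
    exact (hR i).1 x
  have hcau : ∀ x, CauchySeq fun i => g i x := fun x =>
    cauchySeq_of_le_geometric (1 / 2) 1 (by norm_num) (hdist x)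
  choose G hG using fun x => cauchySeq_tendsto_of_complete (hcau x)
  have hGm : Measurable G :=
    measurable_of_tendsto_metrizable (fun i => (hP i).1.bd.1) (tendsto_pi_nhds.2 hG)
  have hgb : ∀ i x, |g i x| ≤ 2 := fun i x => ((hP i).2.1 x).trans (by
    have := he0 i
    linarith)
  have hGb : ∀ x, |G x| ≤ 2 := fun x =>
    le_of_tendsto (hG x).abs (Eventually.of_forall fun i => hgb i x)
  have hGbd : Bd G := ⟨hGm, 2, hGb⟩
  have hmean : Tendsto (fun i => ∫ x, g i x ∂μ) atTop (𝓝 (∫ x, G x ∂μ)) := by
    refine tendsto_integral_of_dominated_convergence (fun _ => 2)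
      (fun i => (hP i).1.bd.1.aestronglyMeasurable) (integrable_const _) (fun i => ?_) ?_
    · exact Eventually.of_forall fun x => by rw [Real.norm_eq_abs]; exact hgb i x
    · exact Eventually.of_forall fun x => hG x
  have hcorr : ∀ k, Tendsto (fun i => corr μ T (g i) (g i) k) atTop (𝓝 (corr μ T G G k)) := by
    intro k
    unfold corr
    refine tendsto_integral_of_dominated_convergence (fun _ => 4)
      (fun i => ?_) (integrable_const _) (fun i => ?_) ?_
    · exact ((hP i).1.bd.mul ((hP i).1.bd.comp (iter_meas hT k))).1.aestronglyMeasurable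
    · refine Eventually.of_forall fun x => ?_
      rw [Real.norm_eq_abs, abs_mul]
      have h1 := hgb i x
      have h2 := hgb i (T^[k] x)
      have := abs_nonneg (g i x)
      have := abs_nonneg (g i (T^[k] x))
      nlinarith
    · exact Eventually.of_forall fun x => (hG x).mul (hG _)
  have hlow : ∀ i, corr μ T (g 1) (g 1) 0 ≤ corr μ T (g (i + 1)) (g (i + 1)) 0 := by
    intro i
    induction i with
    | zero => exact le_rfl
    | succ i ih =>
      have h1 := (hR (i + 1)).2
      have h2 : 0 < e (i + 1) ^ 2 * m (i + 1) / 4 := by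
        have := he0 (i + 1)
        have := hm0 (i + 1)
        positivity
      linarith
  have h1pos : 0 < corr μ T (g 1) (g 1) 0 := by
    have h1 := (hR 0).2
    have h2 : 0 < e 0 ^ 2 * m 0 / 4 := by
      have := he0 0
      have := hm0 0
      positivity
    have h3 : corr μ T (g 0) (g 0) 0 = 0 := by
      rw [h0]
      unfold corr
      simp
    simp only [zero_add] at h1
    linarith
  have hθ : Tendsto (fun i => -(e i ^ 2 * m i / 8)) atTop (𝓝 0) := by
    have h1 : Tendsto e atTop (𝓝 0) := tendsto_pow_atTop_nhds_zero_of_lt_one (by norm_num) (by norm_num)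
    have h2 : Tendsto m atTop (𝓝 0) := by
      have := h1.div_const 512
      rwa [zero_div] at this
    have := (((h1.pow 2).mul h2).div_const 8).neg
    simpa using this
  refine ⟨G, hGm, hGb, ?_, ?_, fun k => ?_⟩
  · refine tendsto_nhds_unique hmean ?_
    refine tendsto_const_nhds.congr fun i => ?_
    exact ((hP i).1.mean).symm
  · refine h1pos.trans_le ?_
    refine ge_of_tendsto ((tendsto_add_atTop_iff_nat 1).2 (hcorr 0)) (Eventually.of_forall hlow)
  · rcases Nat.eq_zero_or_pos k with rfl | hk
    · refine le_trans h1pos.le ?_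
      exact ge_of_tendsto ((tendsto_add_atTop_iff_nat 1).2 (hcorr 0)) (Eventually.of_forall hlow)
    · exact le_of_tendsto_of_tendsto' hθ (hcorr k) fun i => (hP i).2.2 k hk

end Pool.Agent.NH63.OverRec
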