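import Mathlib

/-!
# Random sets of integers: a law of large numbers for the elements and for the close pairs
-/

set_option autoImplicit false
set_option linter.unusedSectionVars false
set_option linter.unusedVariables false
open MeasureTheory ProbabilityTheory Filter Topology
open scoped ENNReal

namespace Pool.Agent.NH63.Rand

variable {Ω : Type*} [MeasurableSpace Ω] {P : Measure Ω} [IsProbabilityMeasure P]

lemma cheb_subseq (V : ℕ → Ω → ℝ) (hV : ∀ n, MemLp (V n) 2 P) (w : ℕ → ℝ) (N : ℕ → ℕ)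
    (hN : ∀ j : ℕ, ((j : ℝ) + 1) ^ 2 ≤ w (N j)) (K δ : ℝ) (hK : 0 ≤ K) (hδ : 0 < δ)
    (hvar : ∀ n, variance (V n) P ≤ K * w n) :
    ∀ᵐ ω ∂P, ∀ᶠ j in atTop, |V (N j) ω - ∫ a, V (N j) a ∂P| < δ * w (N j) := by
  set B : ℕ → Set Ω := fun j => {ω | δ * w (N j) ≤ |V (N j) ω - ∫ a, V (N j) a ∂P|} with hB
  have hw0 : ∀ j, 0 < w (N j) := fun j => lt_of_lt_of_le (by positivity) (hN j)
  have hbd : ∀ j : ℕ, P (B j) ≤ ENNReal.ofReal (K / δ ^ 2 * (1 / ((j : ℝ) + 1) ^ 2)) := by
    intro j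
    have hc : 0 < δ * w (N j) := mul_pos hδ (hw0 j)
    refine (meas_ge_le_variance_div_sq (hV (N j)) hc).trans ?_
    apply ENNReal.ofReal_le_ofReal
    have hw := hw0 j
    calc variance (V (N j)) P / (δ * w (N j)) ^ 2 ≤ K * w (N j) / (δ * w (N j)) ^ 2 := by
          gcongr
          exact hvar _
      _ = K / δ ^ 2 * (1 / w (N j)) := by field_simp
      _ ≤ K / δ ^ 2 * (1 / ((j : ℝ) + 1) ^ 2) := by
          gcongr
          exact hN j
  have hsum : Summable (fun j : ℕ => K / δ ^ 2 * (1 / ((j : ℝ) + 1) ^ 2)) := by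
    apply Summable.mul_left
    have h := (Real.summable_one_div_nat_pow (p := 2)).2 (by norm_num)
    have h2 := (summable_nat_add_iff 1).2 h
    refine h2.congr fun j => ?_
    push_cast
    rfl
  have hfin : ∑' j, P (B j) ≠ ∞ := by
    refine ne_top_of_le_ne_top ?_ (ENNReal.tsum_le_tsum hbd)
    rw [← ENNReal.ofReal_tsum_of_nonneg (fun j => by positivity) hsum]
    exact ENNReal.ofReal_ne_top
  filter_upwards [ae_eventually_notMem hfin] with ω hω
  filter_upwards [hω] with j hj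
  exact not_le.1 hj

/-- The first index with weight at least `(j + 1) ^ 2`. -/
noncomputable def idx (w : ℕ → ℝ) (hw : Tendsto w atTop atTop) (j : ℕ) : ℕ := by
  classical
  exact Nat.find ((hw.eventually_ge_atTop (((j : ℝ) + 1) ^ 2)).exists)

section
variable {w : ℕ → ℝ} (hw : Tendsto w atTop atTop) (hmono : Monotone w) (h0 : w 0 = 0)
  (hstep : ∀ n, w (n + 1) ≤ w n + 1)
include hw hmono h0 hstep

lemma idx_ge (j : ℕ) : ((j : ℝ) + 1) ^ 2 ≤ w (idx w hw j) := by
  classical
  unfold idx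
  exact Nat.find_spec ((hw.eventually_ge_atTop (((j : ℝ) + 1) ^ 2)).exists)

lemma lt_of_lt_idx {j n : ℕ} (h : n < idx w hw j) : w n < ((j : ℝ) + 1) ^ 2 := by
  classical
  unfold idx at h
  exact not_le.1 (Nat.find_min ((hw.eventually_ge_atTop (((j : ℝ) + 1) ^ 2)).exists) h)

lemma idx_le (j : ℕ) : w (idx w hw j) ≤ ((j : ℝ) + 1) ^ 2 + 1 := by
  have h1 := idx_ge hw hmono h0 hstep j
  rcases Nat.eq_zero_or_pos (idx w hw j) with h | h
  · rw [h, h0] at h1
    have : (0 : ℝ) < ((j : ℝ) + 1) ^ 2 := by positivity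
    linarith
  · obtain ⟨m, hm⟩ := Nat.exists_eq_succ_of_ne_zero h.ne'
    have h2 := lt_of_lt_idx hw hmono h0 hstep (j := j) (n := m) (by omega)
    have h3 := hstep m
    rw [hm]
    have : w (m + 1) = w m.succ := rfl
    linarith

lemma exists_between (n J : ℕ) (hn : idx w hw J ≤ n) :
    ∃ j, J ≤ j ∧ idx w hw j ≤ n ∧ n < idx w hw (j + 1) := by
  classical
  have hex : ∃ j, n < idx w hw j := by
    obtain ⟨j, hj⟩ := exists_nat_gt (w n)
    refine ⟨j, ?_⟩
    by_contra hcon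
    push Not at hcon
    have h1 := idx_ge hw hmono h0 hstep j
    have h2 := hmono hcon
    have h3 : (j : ℝ) ≤ ((j : ℝ) + 1) ^ 2 := by nlinarith [Nat.cast_nonneg (α := ℝ) j]
    linarith
  set m := Nat.find hex with hm
  have hmJ : J < m := by
    by_contra hcon
    push Not at hcon
    have h1 : n < idx w hw m := Nat.find_spec hex
    -- idx is monotone
    have h2 : idx w hw m ≤ idx w hw J := by
      by_contra hc
      push Not at hc
      have h3 := lt_of_lt_idx hw hmono h0 hstep hc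
      have h4 := idx_ge hw hmono h0 hstep J
      have h5 : (m : ℝ) ≤ J := by exact_mod_cast hcon
      have h6 : (0 : ℝ) ≤ m := Nat.cast_nonneg m
      nlinarith
    omega
  refine ⟨m - 1, by omega, ?_, ?_⟩
  · exact not_lt.1 (Nat.find_min hex (show m - 1 < m by omega))
  · rw [Nat.sub_add_cancel (by omega)]
    exact Nat.find_spec hex

lemma interp_upper {v : ℕ → ℝ} (hv : Monotone v) {γ : ℝ} (hγ : 0 ≤ γ)
    (h : ∀ᶠ j in atTop, v (idx w hw j) ≤ γ * w (idx w hw j)) :
    ∀ᶠ n in atTop, v n ≤ 2 * γ * w n := by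
  obtain ⟨J, hJ⟩ := eventually_atTop.1 h
  refine eventually_atTop.2 ⟨idx w hw (max J 3), fun n hn => ?_⟩
  obtain ⟨j, hj1, hj2, hj3⟩ := exists_between hw hmono h0 hstep n (max J 3) hn
  have h3 : 3 ≤ j := (le_max_right _ _).trans hj1
  have h4 := hJ (j + 1) (by have := (le_max_left J 3).trans hj1; omega)
  have h5 := idx_le hw hmono h0 hstep (j + 1)
  have h6 := idx_ge hw hmono h0 hstep j
  have h7 := hmono hj2
  have h8 := hv hj3.le
  push_cast at h5
  have h9 : (3 : ℝ) ≤ j := by exact_mod_cast h3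
  have h10 : w (idx w hw (j + 1)) ≤ 2 * w n := by nlinarith
  have := mul_le_mul_of_nonneg_left h10 hγ
  linarith

lemma interp_lower {v : ℕ → ℝ} (hv : Monotone v) {γ : ℝ} (hγ : 0 ≤ γ)
    (h : ∀ᶠ j in atTop, γ * w (idx w hw j) ≤ v (idx w hw j)) :
    ∀ᶠ n in atTop, γ / 2 * w n ≤ v n := by
  obtain ⟨J, hJ⟩ := eventually_atTop.1 h
  refine eventually_atTop.2 ⟨idx w hw (max J 3), fun n hn => ?_⟩
  obtain ⟨j, hj1, hj2, hj3⟩ := exists_between hw hmono h0 hstep n (max J 3) hn
  have h3 : 3 ≤ j := (le_max_right _ _).trans hj1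
  have h4 := hJ j ((le_max_left J 3).trans hj1)
  have h5 := lt_of_lt_idx hw hmono h0 hstep hj3
  have h6 := idx_ge hw hmono h0 hstep j
  have h8 := hv hj2
  push_cast at h5
  have h9 : (3 : ℝ) ≤ j := by exact_mod_cast h3
  have h10 : w n ≤ 2 * w (idx w hw j) := by nlinarith
  have := mul_le_mul_of_nonneg_left h10 hγ
  linarith

end

end Pool.Agent.NH63.Rand
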