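import Pool.Agent.NH63.Rand1

/-!
# Moments of the number of close pairs in a random set
-/

set_option autoImplicit false
set_option linter.unusedSectionVars false
set_option linter.unusedVariables false
open MeasureTheory ProbabilityTheory Filter Topology
open scoped ENNReal

namespace Pool.Agent.NH63.Rand

variable {Ω : Type*} [MeasurableSpace Ω] {P : Measure Ω} [IsProbabilityMeasure P]

/-- `1` if `k` is a success followed by another success in `Ioc k (h k)`, and `0` otherwise. -/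
noncomputable def yy (Z : ℕ → Ω → ℝ) (h : ℕ → ℕ) (k : ℕ) (ω : Ω) : ℝ :=
  Z k ω * (1 - ∏ j ∈ Finset.Ioc k (h k), (1 - Z j ω))

section
variable {Z : ℕ → Ω → ℝ} (hm : ∀ k, Measurable (Z k)) (hind : iIndepFun Z P)
  (h01 : ∀ k ω, Z k ω = 0 ∨ Z k ω = 1) {s : ℕ → ℝ} (hs : ∀ k, ∫ ω, Z k ω ∂P = s k)
  {h : ℕ → ℕ} {α : ℝ} (hα : 0 ≤ α) (hα1 : α ≤ 1)
  (hh : ∀ k, ∑ j ∈ Finset.Ioc k (h k), s j ≤ α)
include hm hind h01 hs hα hα1 hh

lemma Z_nonneg (k : ℕ) (ω : Ω) : 0 ≤ Z k ω := by
  rcases h01 k ω with h | h <;> rw [h] <;> norm_num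

lemma Z_le (k : ℕ) (ω : Ω) : Z k ω ≤ 1 := by
  rcases h01 k ω with h | h <;> rw [h] <;> norm_num

lemma s_nonneg (k : ℕ) : 0 ≤ s k := by
  rw [← hs]
  exact integral_nonneg fun ω => Z_nonneg hm hind h01 hs hα hα1 hh k ω

lemma prod_01 (T : Finset ℕ) (ω : Ω) :
    ∏ j ∈ T, (1 - Z j ω) = 0 ∨ ∏ j ∈ T, (1 - Z j ω) = 1 := by
  by_cases hex : ∃ j ∈ T, Z j ω = 1
  · obtain ⟨j, hj, hj1⟩ := hex
    left
    exact Finset.prod_eq_zero hj (by rw [hj1]; ring)
  · push Not at hex
    right
    exact Finset.prod_eq_one fun j hj => by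
      rcases h01 j ω with h | h
      · rw [h]; ring
      · exact absurd h (hex j hj)

lemma yy_01 (k : ℕ) (ω : Ω) : yy Z h k ω = 0 ∨ yy Z h k ω = 1 := by
  unfold yy
  rcases h01 k ω with h1 | h1
  · left; rw [h1]; ring
  · rcases prod_01 hm hind h01 hs hα hα1 hh (Finset.Ioc k (h k)) ω with h2 | h2
    · right; rw [h1, h2]; ring
    · left; rw [h1, h2]; ring

lemma yy_le_Z (k : ℕ) (ω : Ω) : yy Z h k ω ≤ Z k ω := by
  unfold yy
  rcases prod_01 hm hind h01 hs hα hα1 hh (Finset.Ioc k (h k)) ω with h2 | h2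
  · rw [h2]; simp
  · rw [h2]; simpa using Z_nonneg hm hind h01 hs hα hα1 hh k ω

lemma yy_nonneg (k : ℕ) (ω : Ω) : 0 ≤ yy Z h k ω := by
  rcases yy_01 hm hind h01 hs hα hα1 hh k ω with h | h <;> rw [h]; norm_num

lemma yy_le (k : ℕ) (ω : Ω) :
    yy Z h k ω ≤ ∑ j ∈ Finset.Ioc k (h k), Z k ω * Z j ω := by
  rw [← Finset.mul_sum]
  unfold yy
  apply mul_le_mul_of_nonneg_left _ (Z_nonneg hm hind h01 hs hα hα1 hh k ω)
  by_cases hex : ∃ j ∈ Finset.Ioc k (h k), Z j ω = 1
  · obtain ⟨j, hj, hj1⟩ := hex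
    have h1 : ∏ j ∈ Finset.Ioc k (h k), (1 - Z j ω) = 0 :=
      Finset.prod_eq_zero hj (by rw [hj1]; ring)
    have h2 : Z j ω ≤ ∑ j ∈ Finset.Ioc k (h k), Z j ω :=
      Finset.single_le_sum (f := fun j => Z j ω)
        (fun i _ => Z_nonneg hm hind h01 hs hα hα1 hh i ω) hj
    rw [h1]
    linarith
  · push Not at hex
    have h1 : ∏ j ∈ Finset.Ioc k (h k), (1 - Z j ω) = 1 :=
      Finset.prod_eq_one fun j hj => by
        rcases h01 j ω with h | h
        · rw [h]; ring
        · exact absurd h (hex j hj)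
    rw [h1, sub_self]
    exact Finset.sum_nonneg fun i _ => Z_nonneg hm hind h01 hs hα hα1 hh i ω

lemma meas_yy (k : ℕ) : Measurable (yy Z h k) := by
  unfold yy
  refine (hm k).mul (measurable_const.sub ?_)
  exact Finset.measurable_prod _ fun j _ => measurable_const.sub (hm j)

lemma memLp_Z (k : ℕ) : MemLp (Z k) 2 P :=
  MemLp.of_bound (hm k).aestronglyMeasurable 1 (ae_of_all _ fun ω => by
    rw [Real.norm_eq_abs, abs_of_nonneg (Z_nonneg hm hind h01 hs hα hα1 hh k ω)]
    exact Z_le hm hind h01 hs hα hα1 hh k ω)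

lemma memLp_yy (k : ℕ) : MemLp (yy Z h k) 2 P :=
  MemLp.of_bound (meas_yy hm hind h01 hs hα hα1 hh k).aestronglyMeasurable 1
    (ae_of_all _ fun ω => by
    rcases yy_01 hm hind h01 hs hα hα1 hh k ω with h | h <;> rw [h] <;> simp)

lemma int_Z (k : ℕ) : Integrable (Z k) P :=
  (memLp_Z hm hind h01 hs hα hα1 hh k).integrable (by norm_num)

lemma int_yy (k : ℕ) : Integrable (yy Z h k) P :=
  (memLp_yy hm hind h01 hs hα hα1 hh k).integrable (by norm_num)

lemma int_ZZ (j k : ℕ) : Integrable (fun ω => Z j ω * Z k ω) P :=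
  (memLp_Z hm hind h01 hs hα hα1 hh j).integrable_mul (memLp_Z hm hind h01 hs hα hα1 hh k)

lemma integral_ZZ {j k : ℕ} (hjk : j ≠ k) : ∫ ω, Z j ω * Z k ω ∂P = s j * s k := by
  have h1 := (hind.indepFun hjk).integral_fun_mul_eq_mul_integral
    (hm j).aestronglyMeasurable (hm k).aestronglyMeasurable
  rw [h1, hs, hs]

lemma integral_yy_le (k : ℕ) : ∫ ω, yy Z h k ω ∂P ≤ α * s k := by
  have h1 : ∫ ω, yy Z h k ω ∂P ≤ ∫ ω, ∑ j ∈ Finset.Ioc k (h k), Z k ω * Z j ω ∂P := by
    apply integral_mono (int_yy hm hind h01 hs hα hα1 hh k)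
    · exact integrable_finsetSum _ fun j _ => int_ZZ hm hind h01 hs hα hα1 hh k j
    · exact fun ω => yy_le hm hind h01 hs hα hα1 hh k ω
  rw [integral_finsetSum _ fun j _ => int_ZZ hm hind h01 hs hα hα1 hh k j] at h1
  refine h1.trans ?_
  calc ∑ j ∈ Finset.Ioc k (h k), ∫ ω, Z k ω * Z j ω ∂P
      = ∑ j ∈ Finset.Ioc k (h k), s k * s j := by
        refine Finset.sum_congr rfl fun j hj => ?_
        exact integral_ZZ hm hind h01 hs hα hα1 hh (Finset.mem_Ioc.1 hj).1.ne
    _ = s k * ∑ j ∈ Finset.Ioc k (h k), s j := by rw [Finset.mul_sum]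
    _ ≤ s k * α := mul_le_mul_of_nonneg_left (hh k) (s_nonneg hm hind h01 hs hα hα1 hh k)
    _ = α * s k := by ring

lemma integral_yy_nonneg (k : ℕ) : 0 ≤ ∫ ω, yy Z h k ω ∂P :=
  integral_nonneg fun ω => yy_nonneg hm hind h01 hs hα hα1 hh k ω

/-- the covariance is at most the second moment -/
lemma cov_le_moment (j k : ℕ) :
    cov[yy Z h j, yy Z h k; P] ≤ ∫ ω, yy Z h j ω * yy Z h k ω ∂P := by
  rw [covariance_eq_sub (memLp_yy hm hind h01 hs hα hα1 hh j)
    (memLp_yy hm hind h01 hs hα hα1 hh k)]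
  have h1 := integral_yy_nonneg hm hind h01 hs hα hα1 hh j
  have h2 := integral_yy_nonneg hm hind h01 hs hα hα1 hh k
  have h3 := mul_nonneg h1 h2
  have h4 : ∫ ω, (yy Z h j * yy Z h k) ω ∂P = ∫ ω, yy Z h j ω * yy Z h k ω ∂P := rfl
  linarith

lemma cov_self_le (k : ℕ) : cov[yy Z h k, yy Z h k; P] ≤ s k := by
  refine (cov_le_moment hm hind h01 hs hα hα1 hh k k).trans ?_
  rw [← hs k]
  apply integral_mono
  · exact (memLp_yy hm hind h01 hs hα hα1 hh k).integrable_mul
      (memLp_yy hm hind h01 hs hα hα1 hh k)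
  · exact int_Z hm hind h01 hs hα hα1 hh k
  · intro ω
    have h1 := yy_le_Z hm hind h01 hs hα hα1 hh k ω
    rcases yy_01 hm hind h01 hs hα hα1 hh k ω with h | h
    · simp only [h, mul_zero]
      exact Z_nonneg hm hind h01 hs hα hα1 hh k ω
    · simp only [h, mul_one]
      rw [h] at h1
      exact h1

lemma cov_le_mul {j k : ℕ} (hjk : j ≠ k) : cov[yy Z h j, yy Z h k; P] ≤ s j * s k := by
  refine (cov_le_moment hm hind h01 hs hα hα1 hh j k).trans ?_
  rw [← integral_ZZ hm hind h01 hs hα hα1 hh hjk]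
  apply integral_mono
  · exact (memLp_yy hm hind h01 hs hα hα1 hh j).integrable_mul
      (memLp_yy hm hind h01 hs hα hα1 hh k)
  · exact int_ZZ hm hind h01 hs hα hα1 hh j k
  · intro ω
    exact mul_le_mul (yy_le_Z hm hind h01 hs hα hα1 hh j ω)
      (yy_le_Z hm hind h01 hs hα hα1 hh k ω) (yy_nonneg hm hind h01 hs hα hα1 hh k ω)
      (Z_nonneg hm hind h01 hs hα hα1 hh j ω)

lemma cov_zero {j k : ℕ} (hjk : j < k) (hk : h j < k) : cov[yy Z h j, yy Z h k; P] = 0 := by
  have hd : Disjoint (insert j (Finset.Ioc j (h j))) (insert k (Finset.Ioc k (h k))) := by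
    rw [Finset.disjoint_left]
    intro i hi1 hi2
    simp only [Finset.mem_insert, Finset.mem_Ioc] at hi1 hi2
    omega
  have h1 := hind.indepFun_finset _ _ hd hm
  have h2 : ∀ i : ℕ, ∃ g : ((↥(insert i (Finset.Ioc i (h i)))) → ℝ) → ℝ, Measurable g ∧
      yy Z h i = g ∘ (fun ω (l : ↥(insert i (Finset.Ioc i (h i)))) => Z l ω) := by
    intro i
    refine ⟨fun v => v ⟨i, Finset.mem_insert_self _ _⟩ *
      (1 - ∏ l ∈ (Finset.Ioc i (h i)).attach, (1 - v ⟨l.1, Finset.mem_insert_of_mem l.2⟩)),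
      ?_, ?_⟩
    · refine (measurable_pi_apply _).mul (measurable_const.sub ?_)
      exact Finset.measurable_prod _ fun l _ => measurable_const.sub (measurable_pi_apply _)
    · funext ω
      simp only [Function.comp, yy]
      congr 2
      exact (Finset.prod_attach (Finset.Ioc i (h i)) (fun l => 1 - Z l ω)).symm
  obtain ⟨g1, hg1, e1⟩ := h2 j
  obtain ⟨g2, hg2, e2⟩ := h2 k
  have h3 := h1.comp hg1 hg2
  rw [← e1, ← e2] at h3
  exact h3.covariance_eq_zero (memLp_yy hm hind h01 hs hα hα1 hh j)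
    (memLp_yy hm hind h01 hs hα hα1 hh k)

lemma var_S_le (n : ℕ) :
    variance (fun ω => ∑ k ∈ Finset.range n, Z k ω) P ≤ ∑ k ∈ Finset.range n, s k := by
  have e : (fun ω => ∑ k ∈ Finset.range n, Z k ω) = ∑ k ∈ Finset.range n, Z k := by
    funext ω
    simp
  rw [e, IndepFun.variance_sum (fun i _ => memLp_Z hm hind h01 hs hα hα1 hh i)
    (fun i _ j _ hij => hind.indepFun hij)]
  refine Finset.sum_le_sum fun k _ => ?_
  have h1 := variance_le_expectation_sq (hm k).aestronglyMeasurable (μ := P)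
  refine h1.trans ?_
  rw [← hs k]
  refine le_of_eq (integral_congr_ae (ae_of_all _ fun ω => ?_))
  rcases h01 k ω with h | h <;> simp [h]

lemma var_R_le (n : ℕ) :
    variance (fun ω => ∑ k ∈ Finset.range n, yy Z h k ω) P ≤
      3 * ∑ k ∈ Finset.range n, s k := by
  rw [variance_fun_sum' (fun i _ => memLp_yy hm hind h01 hs hα hα1 hh i)]
  have key : ∀ i j : ℕ, cov[yy Z h i, yy Z h j; P] ≤
      (if i = j then s i else 0) + (if j ∈ Finset.Ioc i (h i) then s i * s j else 0)
        + (if i ∈ Finset.Ioc j (h j) then s j * s i else 0) := by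
    intro i j
    have hsi := s_nonneg hm hind h01 hs hα hα1 hh i
    have hsj := s_nonneg hm hind h01 hs hα hα1 hh j
    have hp := mul_nonneg hsi hsj
    have hp2 := mul_nonneg hsj hsi
    rcases lt_trichotomy i j with hij | hij | hij
    · by_cases hj : j ≤ h i
      · have h1 := cov_le_mul hm hind h01 hs hα hα1 hh hij.ne
        rw [if_neg hij.ne, if_pos (Finset.mem_Ioc.2 ⟨hij, hj⟩),
          if_neg (by rw [Finset.mem_Ioc]; omega)]
        linarith
      · rw [cov_zero hm hind h01 hs hα hα1 hh hij (not_le.1 hj)]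
        positivity
    · subst hij
      have h1 := cov_self_le hm hind h01 hs hα hα1 hh i
      rw [if_pos rfl, if_neg (by rw [Finset.mem_Ioc]; omega)]
      linarith
    · by_cases hj : i ≤ h j
      · have h1 := cov_le_mul hm hind h01 hs hα hα1 hh hij.ne'
        rw [if_neg hij.ne', if_pos (Finset.mem_Ioc.2 ⟨hij, hj⟩),
          if_neg (by rw [Finset.mem_Ioc]; omega)]
        linarith
      · rw [covariance_comm, cov_zero hm hind h01 hs hα hα1 hh hij (not_le.1 hj)]
        positivity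
  have hsn := fun k => s_nonneg hm hind h01 hs hα hα1 hh k
  have step : ∀ i, ∑ j ∈ Finset.range n, (if j ∈ Finset.Ioc i (h i) then s i * s j else 0)
      ≤ s i * α := by
    intro i
    rw [← Finset.sum_filter]
    calc ∑ j ∈ (Finset.range n).filter (fun j => j ∈ Finset.Ioc i (h i)), s i * s j
        ≤ ∑ j ∈ Finset.Ioc i (h i), s i * s j := by
          apply Finset.sum_le_sum_of_subset_of_nonneg
          · intro j hj
            exact (Finset.mem_filter.1 hj).2
          · intro j _ _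
            exact mul_nonneg (hsn i) (hsn j)
      _ = s i * ∑ j ∈ Finset.Ioc i (h i), s j := by rw [Finset.mul_sum]
      _ ≤ s i * α := mul_le_mul_of_nonneg_left (hh i) (hsn i)
  calc ∑ i ∈ Finset.range n, ∑ j ∈ Finset.range n, cov[yy Z h i, yy Z h j; P]
      ≤ ∑ i ∈ Finset.range n, ∑ j ∈ Finset.range n, ((if i = j then s i else 0)
        + (if j ∈ Finset.Ioc i (h i) then s i * s j else 0)
        + (if i ∈ Finset.Ioc j (h j) then s j * s i else 0)) :=
        Finset.sum_le_sum fun i _ => Finset.sum_le_sum fun j _ => key i j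
    _ = ∑ i ∈ Finset.range n, s i
        + ∑ i ∈ Finset.range n, ∑ j ∈ Finset.range n,
            (if j ∈ Finset.Ioc i (h i) then s i * s j else 0)
        + ∑ i ∈ Finset.range n, ∑ j ∈ Finset.range n,
            (if j ∈ Finset.Ioc i (h i) then s i * s j else 0) := by
        simp only [Finset.sum_add_distrib]
        congr 1
        · congr 1
          refine Finset.sum_congr rfl fun i hi => ?_
          rw [Finset.sum_ite_eq, if_pos hi]
        · rw [Finset.sum_comm]
    _ ≤ ∑ i ∈ Finset.range n, s i + ∑ i ∈ Finset.range n, s i * α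
        + ∑ i ∈ Finset.range n, s i * α := by
        gcongr with i _ i _
        · exact step i
        · exact step i
    _ = (1 + 2 * α) * ∑ k ∈ Finset.range n, s k := by
        rw [← Finset.sum_mul]
        ring
    _ ≤ 3 * ∑ k ∈ Finset.range n, s k := by
        apply mul_le_mul_of_nonneg_right _ (Finset.sum_nonneg fun i _ => hsn i)
        linarith

end

end Pool.Agent.NH63.Rand
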