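import Pool.Agent.NH63.Rand2

/-!
# Almost sure bounds for the number of successes and of close pairs
-/

set_option autoImplicit false
set_option linter.unusedSectionVars false
set_option linter.unusedVariables false
open MeasureTheory ProbabilityTheory Filter Topology
open scoped ENNReal

namespace Pool.Agent.NH63.Rand

variable {Ω : Type*} [MeasurableSpace Ω] {P : Measure Ω} [IsProbabilityMeasure P]

section
variable {Z : ℕ → Ω → ℝ} (hm : ∀ k, Measurable (Z k)) (hind : iIndepFun Z P)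
  (h01 : ∀ k ω, Z k ω = 0 ∨ Z k ω = 1) {s : ℕ → ℝ} (hs : ∀ k, ∫ ω, Z k ω ∂P = s k)
  {h : ℕ → ℕ} {α : ℝ} (hα : 0 ≤ α) (hα1 : α ≤ 1)
  (hh : ∀ k, ∑ j ∈ Finset.Ioc k (h k), s j ≤ α)
include hm hind h01 hs hα hα1 hh

lemma s_le (k : ℕ) : s k ≤ 1 := by
  rw [← hs]
  calc ∫ ω, Z k ω ∂P ≤ ∫ ω, (1 : ℝ) ∂P := by
        apply integral_mono (int_Z hm hind h01 hs hα hα1 hh k) (integrable_const _)
        exact fun ω => Z_le hm hind h01 hs hα hα1 hh k ω
    _ = 1 := by simp

theorem asymp (hα0 : 0 < α)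
    (hdiv : Tendsto (fun n => ∑ k ∈ Finset.range n, s k) atTop atTop) :
    ∀ᵐ ω ∂P, ∀ᶠ n in atTop,
      (∑ k ∈ Finset.range n, s k) / 3 ≤ ∑ k ∈ Finset.range n, Z k ω ∧
      ∑ k ∈ Finset.range n, yy Z h k ω ≤ 4 * α * ∑ k ∈ Finset.range n, s k := by
  set w : ℕ → ℝ := fun n => ∑ k ∈ Finset.range n, s k with hw
  have hsn := fun k => s_nonneg hm hind h01 hs hα hα1 hh k
  have hmono : Monotone w := by
    refine monotone_nat_of_le_succ fun n => ?_
    simp only [hw, Finset.sum_range_succ]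
    linarith [hsn n]
  have h0 : w 0 = 0 := by simp [hw]
  have hstep : ∀ n, w (n + 1) ≤ w n + 1 := by
    intro n
    simp only [hw, Finset.sum_range_succ]
    linarith [s_le hm hind h01 hs hα hα1 hh n]
  have hN := idx_ge hdiv hmono h0 hstep
  have hS := cheb_subseq (P := P) (fun n ω => ∑ k ∈ Finset.range n, Z k ω)
    (fun n => memLp_finsetSum _ fun k _ => memLp_Z hm hind h01 hs hα hα1 hh k) w
    (idx w hdiv) hN 1 (1 / 3) (by norm_num) (by norm_num)
    (fun n => by rw [one_mul]; exact var_S_le hm hind h01 hs hα hα1 hh n)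
  have hR := cheb_subseq (P := P) (fun n ω => ∑ k ∈ Finset.range n, yy Z h k ω)
    (fun n => memLp_finsetSum _ fun k _ => memLp_yy hm hind h01 hs hα hα1 hh k) w
    (idx w hdiv) hN 3 α (by norm_num) hα0
    (fun n => var_R_le hm hind h01 hs hα hα1 hh n)
  have eS : ∀ n, ∫ ω, ∑ k ∈ Finset.range n, Z k ω ∂P = w n := by
    intro n
    rw [integral_finsetSum _ fun k _ => int_Z hm hind h01 hs hα hα1 hh k]
    exact Finset.sum_congr rfl fun k _ => hs k
  have eR : ∀ n, ∫ ω, ∑ k ∈ Finset.range n, yy Z h k ω ∂P ≤ α * w n := by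
    intro n
    rw [integral_finsetSum _ fun k _ => int_yy hm hind h01 hs hα hα1 hh k, Finset.mul_sum]
    exact Finset.sum_le_sum fun k _ => integral_yy_le hm hind h01 hs hα hα1 hh k
  filter_upwards [hS, hR] with ω h1 h2
  have h3 : ∀ᶠ n in atTop, (2 / 3 : ℝ) / 2 * w n ≤ ∑ k ∈ Finset.range n, Z k ω := by
    apply interp_lower hdiv hmono h0 hstep (v := fun n => ∑ k ∈ Finset.range n, Z k ω) _
      (by norm_num)
    · filter_upwards [h1] with j hj
      rw [eS] at hj
      have := (abs_lt.1 hj).1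
      linarith
    · refine monotone_nat_of_le_succ fun n => ?_
      simp only [Finset.sum_range_succ]
      linarith [Z_nonneg hm hind h01 hs hα hα1 hh n ω]
  have h4 : ∀ᶠ n in atTop, ∑ k ∈ Finset.range n, yy Z h k ω ≤ 2 * (2 * α) * w n := by
    apply interp_upper hdiv hmono h0 hstep (v := fun n => ∑ k ∈ Finset.range n, yy Z h k ω) _
      (by positivity)
    · filter_upwards [h2] with j hj
      have h5 := (abs_lt.1 hj).2
      have h6 := eR (idx w hdiv j)
      linarith
    · refine monotone_nat_of_le_succ fun n => ?_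
      simp only [Finset.sum_range_succ]
      linarith [yy_nonneg hm hind h01 hs hα hα1 hh n ω]
  filter_upwards [h3, h4] with n h5 h6
  refine ⟨?_, ?_⟩
  · have : w n / 3 = (2 / 3 : ℝ) / 2 * w n := by ring
    rw [this]
    exact h5
  · linarith

end

end Pool.Agent.NH63.Rand
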