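import Pool.Agent.Y249.BG.Growth3
import Pool.Agent.Y249.BG.Translate2
import Pool.Agent.Y249.BG.SSO

/-!
# Removing the close pairs: the deterministic part
-/

set_option autoImplicit false
set_option linter.unusedSectionVars false
set_option linter.unusedVariables false
open Filter Topology

namespace Pool.Agent.NH63.Rand

open Classical in
/-- Reindexing by the enumeration. -/
lemma reindex (p : ℕ → Prop) (hp : {k | p k}.Infinite) (r : ℕ → Prop) (N : ℕ) (hN : 1 ≤ N) :
    ((Finset.Icc 1 N).filter (fun n => r (Nat.nth p (n - 1)))).card =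
      ((Finset.range (Nat.nth p (N - 1) + 1)).filter (fun k => p k ∧ r k)).card := by
  refine Finset.card_bij (fun n _ => Nat.nth p (n - 1)) ?_ ?_ ?_
  · intro n hn
    simp only [Finset.mem_filter, Finset.mem_Icc, Finset.mem_range] at hn ⊢
    refine ⟨?_, Nat.nth_mem_of_infinite hp _, hn.2⟩
    exact Nat.lt_succ_of_le ((Nat.nth_strictMono hp).monotone (by omega))
  · intro n hn m hm h
    simp only [Finset.mem_filter, Finset.mem_Icc] at hn hm
    have := (Nat.nth_strictMono hp).injective h
    omega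
  · intro k hk
    simp only [Finset.mem_filter, Finset.mem_range] at hk
    refine ⟨Nat.count p k + 1, ?_, ?_⟩
    · simp only [Finset.mem_filter, Finset.mem_Icc, Nat.add_sub_cancel]
      rw [Nat.nth_count hk.2.1]
      refine ⟨⟨by omega, ?_⟩, hk.2.2⟩
      have h1 : Nat.count p k ≤ Nat.count p (Nat.nth p (N - 1)) :=
        Nat.count_monotone p (by omega)
      rw [Nat.count_nth_of_infinite hp] at h1
      omega
    · simp only [Nat.add_sub_cancel]
      exact Nat.nth_count hk.2.1

open Classical in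
lemma count_succ_nth (p : ℕ → Prop) (hp : {k | p k}.Infinite) (N : ℕ) (hN : 1 ≤ N) :
    ((Finset.range (Nat.nth p (N - 1) + 1)).filter p).card = N := by
  have h := reindex p hp (fun _ => True) N hN
  simp only [and_true, Finset.filter_true, Nat.card_Icc, Nat.add_sub_cancel] at h
  exact h.symm

open Classical in
/-- Transfer from a subset `q` of large relative density. -/
theorem transfer (p q : ℕ → Prop) (hp : {k | p k}.Infinite) (hq : {k | q k}.Infinite)
    (hqp : ∀ k, q k → p k) (d : ℕ) (hd : 2 ≤ d)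
    (hbad : ∀ᶠ n in atTop, 2 * d * ((Finset.range n).filter (fun k => p k ∧ ¬ q k)).card ≤
      ((Finset.range n).filter p).card)
    (hcyc : Y249.BG.CycIn (fun n => Nat.nth q (n - 1))) (D Nmin : ℕ) :
    ∃ (Q : ℕ) (_ : NeZero Q) (E F : Finset (ZMod Q)) (Nmax : ℕ),
      d * (Fᶜ).card ≤ Q ∧ D * E.card ≤ Q ∧
      ∀ x ∈ F, ∃ N : ℕ, Nmin ≤ N ∧ 0 < N ∧ N ≤ Nmax ∧
        d * ((Finset.Icc 1 N).filter
          (fun n => x + ((Nat.nth p (n - 1) : ℕ) : ZMod Q) ∉ E)).card ≤ N := by
  obtain ⟨n₀, hn₀⟩ := eventually_atTop.1 hbad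
  obtain ⟨Q, hQ, E, F, Nmax, hF, hE, hx⟩ := hcyc (2 * d) (by omega) D (max Nmin n₀)
  refine ⟨Q, hQ, E, F, Nat.count p (Nat.nth q (Nmax - 1)) + 1, ?_, hE, ?_⟩
  · have : d * (Fᶜ).card ≤ 2 * d * (Fᶜ).card := by
      apply Nat.mul_le_mul_right
      omega
    omega
  intro x hxF
  obtain ⟨N', h1, h2, h3, h4⟩ := hx x hxF
  set b := Nat.nth q (N' - 1) with hb
  have hqb : q b := Nat.nth_mem_of_infinite hq _
  have hpb : p b := hqp b hqb
  have hbN : N' - 1 ≤ b := (Nat.nth_strictMono hq).le_apply
  have hnth : Nat.nth p (Nat.count p b + 1 - 1) = b := by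
    rw [Nat.add_sub_cancel]
    exact Nat.nth_count hpb
  have hcN := count_succ_nth p hp (Nat.count p b + 1) (by omega)
  rw [hnth] at hcN
  have hcN' := count_succ_nth q hq N' h2
  rw [← hb] at hcN'
  have hN'N : N' ≤ Nat.count p b + 1 := by
    rw [← hcN, ← hcN']
    apply Finset.card_le_card
    intro k hk
    rw [Finset.mem_filter] at hk ⊢
    exact ⟨hk.1, hqp k hk.2⟩
  refine ⟨Nat.count p b + 1, ?_, by omega, ?_, ?_⟩
  · exact (le_max_left _ _).trans (h1.trans hN'N)
  · have : Nat.count p b ≤ Nat.count p (Nat.nth q (Nmax - 1)) :=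
      Nat.count_monotone p ((Nat.nth_strictMono hq).monotone (by omega))
    omega
  · have e1 := reindex p hp (fun k => x + ((k : ℕ) : ZMod Q) ∉ E) (Nat.count p b + 1) (by omega)
    rw [hnth] at e1
    have e2 := reindex q hq (fun k => x + ((k : ℕ) : ZMod Q) ∉ E) N' h2
    rw [← hb] at e2
    have h5 := hn₀ (b + 1) (by
      have := (le_max_right Nmin n₀).trans h1
      omega)
    rw [hcN] at h5
    have h6 : ((Finset.range (b + 1)).filter
          (fun k => p k ∧ x + ((k : ℕ) : ZMod Q) ∉ E)).card ≤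
        ((Finset.range (b + 1)).filter (fun k => q k ∧ x + ((k : ℕ) : ZMod Q) ∉ E)).card +
        ((Finset.range (b + 1)).filter (fun k => p k ∧ ¬ q k)).card := by
      refine le_trans (Finset.card_le_card ?_) (Finset.card_union_le _ _)
      intro k hk
      rw [Finset.mem_filter] at hk
      rw [Finset.mem_union, Finset.mem_filter, Finset.mem_filter]
      by_cases hqk : q k
      · exact Or.inl ⟨hk.1, hqk, hk.2.2⟩
      · exact Or.inr ⟨hk.1, hk.2.1, hqk⟩
    have h4' : 2 * d * ((Finset.range (b + 1)).filter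
        (fun k => q k ∧ x + ((k : ℕ) : ZMod Q) ∉ E)).card ≤ N' := by
      refine le_of_eq_of_le ?_ h4
      congr 1
      convert e2.symm
    have goal2 : d * ((Finset.range (b + 1)).filter
          (fun k => p k ∧ x + ((k : ℕ) : ZMod Q) ∉ E)).card ≤ Nat.count p b + 1 := by
      nlinarith [Nat.mul_le_mul_left (2 * d) h6]
    refine le_of_eq_of_le ?_ goal2
    congr 1
    convert e1

/-- The success `k` is followed by another success at most `k * (1 + c / log log k)`. -/
def Bad (p : ℕ → Prop) (c : ℝ) (k : ℕ) : Prop :=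
  p k ∧ ∃ j, k < j ∧ (j : ℝ) ≤ k * (1 + c / Real.log (Real.log k)) ∧ p j

/-- The kept successes. -/
def Keep (p : ℕ → Prop) (c : ℝ) (k : ℕ) : Prop :=
  p k ∧ ∀ j, k < j → (j : ℝ) ≤ k * (1 + c / Real.log (Real.log k)) → ¬ p j

lemma bad_iff (p : ℕ → Prop) (c : ℝ) (k : ℕ) : Bad p c k ↔ p k ∧ ¬ Keep p c k := by
  unfold Bad Keep
  constructor
  · rintro ⟨h1, j, h2, h3, h4⟩
    exact ⟨h1, fun h => h.2 j h2 h3 h4⟩
  · rintro ⟨h1, h2⟩
    push Not at h2
    obtain ⟨j, h3, h4, h5⟩ := h2 h1
    exact ⟨h1, j, h3, h4, h5⟩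

open Classical in
theorem cycIn_of_density (p : ℕ → Prop) (hp0 : ¬ p 0)
    (hlog : ∃ c : ℝ, 0 < c ∧ ∀ᶠ n : ℕ in atTop, c * Real.log n ≤
      (((Finset.range n).filter p).card : ℝ))
    (hbad : ∀ d : ℕ, 2 ≤ d → ∃ c : ℝ, 0 < c ∧ ∀ᶠ n : ℕ in atTop,
      2 * d * ((Finset.range n).filter (Bad p c)).card ≤ ((Finset.range n).filter p).card) :
    {k | p k}.Infinite ∧ Y249.BG.CycIn (fun n => Nat.nth p (n - 1)) := by
  obtain ⟨c₁, hc₁, hl⟩ := hlog
  have hinf : ∀ (q : ℕ → Prop) (c : ℝ), 0 < c → (∀ᶠ n : ℕ in atTop, c * Real.log n ≤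
      (((Finset.range n).filter q).card : ℝ)) → {k | q k}.Infinite := by
    intro q c hc h hfin
    have h1 : Tendsto (fun n : ℕ => c * Real.log n) atTop atTop :=
      (Real.tendsto_log_atTop.comp tendsto_natCast_atTop_atTop).const_mul_atTop hc
    have h2 := h1.eventually_gt_atTop ((hfin.toFinset.card : ℝ))
    obtain ⟨n, hn1, hn2⟩ := (h.and h2).exists
    have h3 : ((Finset.range n).filter q).card ≤ hfin.toFinset.card := by
      apply Finset.card_le_card
      intro k hk
      rw [Set.Finite.mem_toFinset]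
      exact (Finset.mem_filter.1 hk).2
    have h4 : (((Finset.range n).filter q).card : ℝ) ≤ (hfin.toFinset.card : ℝ) := by
      exact_mod_cast h3
    linarith
  have hpinf := hinf p c₁ hc₁ hl
  refine ⟨hpinf, ?_⟩
  intro d hd D Nmin
  obtain ⟨c, hc, hb⟩ := hbad d hd
  set q : ℕ → Prop := Keep p c with hq
  have hqp : ∀ k, q k → p k := fun k hk => hk.1
  have hb' : ∀ᶠ n in atTop, 2 * d * ((Finset.range n).filter (fun k => p k ∧ ¬ q k)).card ≤
      ((Finset.range n).filter p).card := by
    filter_upwards [hb] with n hn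
    have e : (Finset.range n).filter (Bad p c) =
        (Finset.range n).filter (fun k => p k ∧ ¬ q k) := by
      apply Finset.filter_congr
      intro k _
      exact bad_iff p c k
    rw [← e]
    exact hn
  -- the kept ones have at least half of the density
  have hql : ∀ᶠ n : ℕ in atTop, c₁ / 2 * Real.log n ≤
      (((Finset.range n).filter q).card : ℝ) := by
    filter_upwards [hb', hl] with n h1 h2
    have h3 : ((Finset.range n).filter p).card ≤ ((Finset.range n).filter q).card +
        ((Finset.range n).filter (fun k => p k ∧ ¬ q k)).card := by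
      refine le_trans (Finset.card_le_card ?_) (Finset.card_union_le _ _)
      intro k hk
      rw [Finset.mem_filter] at hk
      rw [Finset.mem_union, Finset.mem_filter, Finset.mem_filter]
      by_cases hqk : q k
      · exact Or.inl ⟨hk.1, hqk⟩
      · exact Or.inr ⟨hk.1, hk.2, hqk⟩
    have h4 : 2 * ((Finset.range n).filter (fun k => p k ∧ ¬ q k)).card ≤
        ((Finset.range n).filter p).card := by
      refine le_trans ?_ h1
      apply Nat.mul_le_mul_right
      omega
    have h5 : ((Finset.range n).filter p).card ≤ 2 * ((Finset.range n).filter q).card := by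
      omega
    have h6 : (((Finset.range n).filter p).card : ℝ) ≤
        2 * (((Finset.range n).filter q).card : ℝ) := by exact_mod_cast h5
    linarith
  have hqinf := hinf q (c₁ / 2) (by positivity) hql
  have hpos : ∀ n, 0 < Nat.nth q (n - 1) := by
    intro n
    have h1 : q (Nat.nth q (n - 1)) := Nat.nth_mem_of_infinite hqinf _
    rcases Nat.eq_zero_or_pos (Nat.nth q (n - 1)) with h2 | h2
    · rw [h2] at h1
      exact absurd (hqp 0 h1) hp0
    · exact h2
  -- growth of the kept ones
  have hgrow : ∃ n₀ : ℕ, ∀ n ≥ n₀,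
      ((Nat.nth q (n + 1 - 1) : ℝ) / (Nat.nth q (n - 1) : ℝ)) ≥ 1 + (c / 2) / Real.log (n : ℝ) := by
    obtain ⟨n₁, hn₁⟩ := eventually_atTop.1 hql
    -- eventually log (c₁/2) + log log b ≥ (1/2) log log b
    have h1 : Tendsto (fun n : ℕ => Real.log (Real.log n)) atTop atTop :=
      Real.tendsto_log_atTop.comp (Real.tendsto_log_atTop.comp tendsto_natCast_atTop_atTop)
    obtain ⟨n₂, hn₂⟩ := eventually_atTop.1
      (h1.eventually_ge_atTop (max 1 (2 * (-Real.log (c₁ / 2)))))
    refine ⟨max (max n₁ (n₂ + 1)) 16, fun n hn => ?_⟩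
    have hn1 : n₁ ≤ n := by omega
    have hn2 : n₂ + 1 ≤ n := by omega
    have hn16 : 16 ≤ n := by omega
    set b := Nat.nth q (n - 1) with hb
    have hbn : n - 1 ≤ b := (Nat.nth_strictMono hqinf).le_apply
    have hqb : q b := Nat.nth_mem_of_infinite hqinf _
    have hb1 : (0 : ℝ) < b := by
      have : 0 < b := hpos n
      exact_mod_cast this
    have h2 := hn₂ b (by omega)
    have hLL1 : 1 ≤ Real.log (Real.log b) := (le_max_left _ _).trans h2
    have hLL2 : 2 * (-Real.log (c₁ / 2)) ≤ Real.log (Real.log b) := (le_max_right _ _).trans h2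
    have hcard := count_succ_nth q hqinf n (by omega)
    rw [← hb] at hcard
    have h3 := hn₁ (b + 1) (by omega)
    rw [hcard] at h3
    have hblog : 0 < Real.log (b : ℝ) := by
      apply Real.log_pos
      have : 2 ≤ b := by omega
      have : (2 : ℝ) ≤ b := by exact_mod_cast this
      linarith
    have h4 : c₁ / 2 * Real.log b ≤ n := by
      refine le_trans ?_ h3
      apply mul_le_mul_of_nonneg_left _ (by positivity)
      apply Real.log_le_log hb1
      push_cast
      linarith
    have h5 : Real.log (c₁ / 2) + Real.log (Real.log b) ≤ Real.log n := by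
      rw [← Real.log_mul (by positivity) hblog.ne']
      exact Real.log_le_log (by positivity) h4
    have h6 : Real.log (Real.log b) ≤ 2 * Real.log n := by linarith
    have h7 : 0 < Real.log (n : ℝ) := by linarith
    have hb'gt : b < Nat.nth q (n + 1 - 1) := by
      rw [hb]
      exact Nat.nth_strictMono hqinf (by omega)
    have hb'q : q (Nat.nth q (n + 1 - 1)) := Nat.nth_mem_of_infinite hqinf _
    have h8 : (b : ℝ) * (1 + c / Real.log (Real.log b)) < (Nat.nth q (n + 1 - 1) : ℝ) := by
      by_contra hcon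
      push Not at hcon
      exact hqb.2 _ hb'gt hcon (hqp _ hb'q)
    rw [ge_iff_le, le_div_iff₀ hb1]
    have h9 : c / 2 / Real.log n ≤ c / Real.log (Real.log b) := by
      rw [div_div]
      exact div_le_div_of_nonneg_left hc.le (by linarith) h6
    calc (1 + c / 2 / Real.log n) * b ≤ (1 + c / Real.log (Real.log b)) * b := by
          apply mul_le_mul_of_nonneg_right _ hb1.le
          linarith
      _ = b * (1 + c / Real.log (Real.log b)) := by ring
      _ ≤ _ := h8.le
  have hcyc : Y249.BG.CycIn (fun n => Nat.nth q (n - 1)) :=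
    Y249.BG.cyclic2 (fun n => Nat.nth q (n - 1))
      (fun e he C Nm => Y249.BG.comb3 (fun n => Nat.nth q (n - 1)) hpos (c / 2) (by positivity)
        hgrow e he C Nm)
  exact transfer p q hpinf hqinf hqp d hd hb' hcyc D Nmin

end Pool.Agent.NH63.Rand
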