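import Pool.Agent.NH63.Rand3
import Pool.Agent.NH63.Rand4

/-!
# Random sets with density between `c / n` and `C * log log n / n`
-/

set_option autoImplicit false
set_option linter.unusedSectionVars false
set_option linter.unusedVariables false
open MeasureTheory ProbabilityTheory Filter Topology
open scoped ENNReal

namespace Pool.Agent.NH63.Rand

lemma log_three {K : ℝ} (hK : 16 ≤ K) : 2 ≤ Real.log K := by
  have h1 : (2 : ℝ) = Real.log (Real.exp 2) := by rw [Real.log_exp]
  rw [h1]
  apply Real.log_le_log (Real.exp_pos 2)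
  have h2 : Real.exp 2 = Real.exp 1 * Real.exp 1 := by rw [← Real.exp_add]; norm_num
  have h3 := Real.exp_one_lt_d9
  have h4 := Real.exp_pos 1
  rw [h2]
  nlinarith

lemma loglog_pos {K : ℝ} (hK : 16 ≤ K) : 0 < Real.log (Real.log K) :=
  Real.log_pos (by linarith [log_three hK])

lemma loglog_two_mul {K x : ℝ} (hK : 16 ≤ K) (hx1 : K ≤ x) (hx : x ≤ 2 * K) :
    Real.log (Real.log x) ≤ 2 * Real.log (Real.log K) := by
  have h1 := log_three hK
  have h2 : Real.log x ≤ Real.log K ^ 2 := by
    have h3 : Real.log x ≤ Real.log (2 * K) := Real.log_le_log (by linarith) hx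
    rw [Real.log_mul (by norm_num) (by linarith)] at h3
    have h4 := Real.log_two_lt_d9
    nlinarith
  have h5 : Real.log (Real.log x) ≤ Real.log (Real.log K ^ 2) := by
    apply Real.log_le_log _ h2
    have : Real.log K ≤ Real.log x := Real.log_le_log (by linarith) hx1
    linarith
  rw [Real.log_pow] at h5
  exact_mod_cast h5

/-- The length of the forbidden interval after `k`, in shifted coordinates. -/
noncomputable def hf (n₀ : ℕ) (c : ℝ) (k : ℕ) : ℕ :=
  if k < n₀ then k else ⌊((k : ℝ) + 1) * (1 + c / Real.log (Real.log ((k : ℝ) + 1)))⌋₊ - 1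

lemma hf_sum (s : ℕ → ℝ) (n₀ : ℕ) (hn₀ : 16 ≤ n₀) (C : ℝ) (hC : 1 ≤ C)
    (hs : ∀ k, n₀ ≤ k → s k ≤ C * Real.log (Real.log ((k : ℝ) + 1)) / ((k : ℝ) + 1))
    (c : ℝ) (hc : 0 < c) (hc1 : c ≤ Real.log (Real.log 16)) (k : ℕ) :
    ∑ j ∈ Finset.Ioc k (hf n₀ c k), s j ≤ 2 * C * c := by
  unfold hf
  split_ifs with hk
  · simp only [Finset.Ioc_self, Finset.sum_empty]
    positivity
  push Not at hk
  set K : ℝ := (k : ℝ) + 1 with hKdef
  have hK : 16 ≤ K := by
    have h1 : (16 : ℝ) ≤ k := by exact_mod_cast hn₀.trans hk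
    linarith
  have hLK := loglog_pos hK
  have hLL : Real.log (Real.log 16) ≤ Real.log (Real.log K) := by
    apply Real.log_le_log (Real.log_pos (by norm_num))
    exact Real.log_le_log (by norm_num) hK
  set L := Real.log (Real.log K) with hL
  have hcL : c / L ≤ 1 := by
    rw [div_le_one hLK]
    linarith
  set m := ⌊K * (1 + c / L)⌋₊ with hm
  have hmle : (m : ℝ) ≤ K * (1 + c / L) := Nat.floor_le (by positivity)
  have hbound : ∀ j ∈ Finset.Ioc k (m - 1), s j ≤ 2 * C * L / K := by
    intro j hj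
    rw [Finset.mem_Ioc] at hj
    have hj1 : j + 1 ≤ m := by omega
    have hj2 : (j : ℝ) + 1 ≤ m := by exact_mod_cast hj1
    have hj3 : K ≤ (j : ℝ) + 1 := by
      have : (k : ℝ) < j := by exact_mod_cast hj.1
      rw [hKdef]
      linarith
    have hj4 : (j : ℝ) + 1 ≤ 2 * K := by nlinarith
    have h1 := hs j (by omega)
    have h2 := loglog_two_mul hK hj3 hj4
    refine h1.trans ?_
    have h3 : C * Real.log (Real.log ((j : ℝ) + 1)) / ((j : ℝ) + 1) ≤
        C * (2 * L) / ((j : ℝ) + 1) := by
      gcongr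
    refine h3.trans ?_
    have h4 : C * (2 * L) / ((j : ℝ) + 1) ≤ C * (2 * L) / K := by
      gcongr
    refine h4.trans (le_of_eq ?_)
    ring
  calc ∑ j ∈ Finset.Ioc k (m - 1), s j ≤ ∑ j ∈ Finset.Ioc k (m - 1), 2 * C * L / K :=
        Finset.sum_le_sum hbound
    _ = ((m - 1 - k : ℕ) : ℝ) * (2 * C * L / K) := by
        rw [Finset.sum_const, Nat.card_Ioc, nsmul_eq_mul]
    _ ≤ (K * (c / L)) * (2 * C * L / K) := by
        apply mul_le_mul_of_nonneg_right _ (by positivity)
        rcases Nat.lt_or_ge (m - 1) k with h | h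
        · rw [Nat.sub_eq_zero_of_le h.le]
          simp only [Nat.cast_zero]
          positivity
        · rcases Nat.eq_zero_or_pos m with h0 | h0
          · have : k = 0 := by omega
            omega
          · rw [Nat.cast_sub h, Nat.cast_sub h0]
            push_cast
            have : K * (1 + c / L) = K + K * (c / L) := by ring
            linarith
    _ = 2 * C * c := by
        field_simp

section
open Classical

variable {Ω : Type*} [MeasurableSpace Ω] {P : Measure Ω} [IsProbabilityMeasure P]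

/-- Success at time `k ≥ 1`. -/
def Suc (Z : ℕ → Ω → ℝ) (ω : Ω) (k : ℕ) : Prop := 1 ≤ k ∧ Z (k - 1) ω = 1

lemma sum_Z_eq {Z : ℕ → Ω → ℝ} (h01 : ∀ k ω, Z k ω = 0 ∨ Z k ω = 1) (ω : Ω) (n : ℕ) :
    ∑ k ∈ Finset.range n, Z k ω = (((Finset.range (n + 1)).filter (Suc Z ω)).card : ℝ) := by
  induction n with
  | zero =>
    have : (Finset.range (0 + 1)).filter (Suc Z ω) = ∅ := by
      apply Finset.filter_eq_empty_iff.2
      intro k hk
      have : k = 0 := by simpa using hk
      subst this
      unfold Suc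
      omega
    rw [this]
    simp
  | succ n ih =>
    rw [Finset.sum_range_succ, ih, Finset.range_add_one (n := n + 1), Finset.filter_insert]
    by_cases h : Suc Z ω (n + 1)
    · rw [if_pos h, Finset.card_insert_of_notMem (by simp)]
      have h2 : Z n ω = 1 := by simpa [Suc] using h
      rw [h2]
      push_cast
      ring
    · rw [if_neg h]
      have h2 : Z n ω = 0 := by
        rcases h01 n ω with h3 | h3
        · exact h3
        · exfalso
          apply h
          exact ⟨by omega, by simpa using h3⟩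
      rw [h2, add_zero]

lemma bad_le {Z : ℕ → Ω → ℝ} (h01 : ∀ k ω, Z k ω = 0 ∨ Z k ω = 1) (ω : Ω) (n₀ : ℕ) (c : ℝ)
    (n : ℕ) :
    (((Finset.range (n + 1)).filter (Bad (Suc Z ω) c)).card : ℝ) ≤
      ∑ k ∈ Finset.range n, yy Z (hf n₀ c) k ω + n₀ := by
  have yy01 : ∀ k, 0 ≤ yy Z (hf n₀ c) k ω := by
    intro k
    unfold yy
    have h1 : ∏ j ∈ Finset.Ioc k (hf n₀ c k), (1 - Z j ω) = 0 ∨
        ∏ j ∈ Finset.Ioc k (hf n₀ c k), (1 - Z j ω) = 1 := by
      by_cases hex : ∃ j ∈ Finset.Ioc k (hf n₀ c k), Z j ω = 1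
      · obtain ⟨j, hj, hj1⟩ := hex
        left
        exact Finset.prod_eq_zero hj (by rw [hj1]; ring)
      · push Not at hex
        right
        exact Finset.prod_eq_one fun j hj => by
          rcases h01 j ω with h | h
          · rw [h]; ring
          · exact absurd h (hex j hj)
    rcases h01 k ω with h2 | h2 <;> rcases h1 with h1 | h1 <;> rw [h1, h2] <;> norm_num
  have hone : ∀ k, n₀ ≤ k → Bad (Suc Z ω) c (k + 1) → yy Z (hf n₀ c) k ω = 1 := by
    rintro k hk ⟨⟨_, h1⟩, j, h2, h3, h4, h5⟩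
    rw [Nat.add_sub_cancel] at h1
    unfold yy
    have hj : j - 1 ∈ Finset.Ioc k (hf n₀ c k) := by
      rw [Finset.mem_Ioc]
      refine ⟨by omega, ?_⟩
      unfold hf
      rw [if_neg (by omega)]
      apply Nat.sub_le_sub_right
      apply Nat.le_floor
      push_cast at h3
      exact h3
    have h6 : ∏ j ∈ Finset.Ioc k (hf n₀ c k), (1 - Z j ω) = 0 :=
      Finset.prod_eq_zero hj (by rw [h5]; ring)
    rw [h1, h6]
    ring
  induction n with
  | zero =>
    have : (Finset.range (0 + 1)).filter (Bad (Suc Z ω) c) = ∅ := by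
      apply Finset.filter_eq_empty_iff.2
      intro k hk
      have : k = 0 := by simpa using hk
      subst this
      unfold Bad Suc
      rintro ⟨⟨h, _⟩, _⟩
      omega
    rw [this]
    simp
  | succ n ih =>
    -- first treat small `n` separately
    rcases Nat.lt_or_ge n n₀ with hn | hn
    · have h1 : ((Finset.range (n + 1 + 1)).filter (Bad (Suc Z ω) c)).card ≤ n + 1 := by
        have h2 : (Finset.range (n + 1 + 1)).filter (Bad (Suc Z ω) c) ⊆
            Finset.Icc 1 (n + 1) := by
          intro k hk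
          rw [Finset.mem_filter, Finset.mem_range] at hk
          rw [Finset.mem_Icc]
          exact ⟨hk.2.1.1, by omega⟩
        have h3 := Finset.card_le_card h2
        rw [Nat.card_Icc] at h3
        omega
      have h2 : (((Finset.range (n + 1 + 1)).filter (Bad (Suc Z ω) c)).card : ℝ) ≤ (n₀ : ℝ) := by
        exact_mod_cast h1.trans (by omega)
      have h3 : 0 ≤ ∑ k ∈ Finset.range (n + 1), yy Z (hf n₀ c) k ω :=
        Finset.sum_nonneg fun k _ => yy01 k
      linarith
    · rw [Finset.sum_range_succ, Finset.range_add_one (n := n + 1), Finset.filter_insert]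
      by_cases h : Bad (Suc Z ω) c (n + 1)
      · rw [if_pos h, Finset.card_insert_of_notMem (by simp), hone n hn h]
        push_cast
        linarith
      · rw [if_neg h]
        linarith [yy01 n]

theorem almost_sure {Z : ℕ → Ω → ℝ} (hm : ∀ k, Measurable (Z k)) (hind : iIndepFun Z P)
    (h01 : ∀ k ω, Z k ω = 0 ∨ Z k ω = 1) {s : ℕ → ℝ} (hs : ∀ k, ∫ ω, Z k ω ∂P = s k)
    (c₀ C : ℝ) (hc₀ : 0 < c₀) (n₀ : ℕ)
    (hlow : ∀ k, n₀ ≤ k → c₀ / ((k : ℝ) + 1) ≤ s k)
    (hup : ∀ k, n₀ ≤ k → s k ≤ C * Real.log (Real.log ((k : ℝ) + 1)) / ((k : ℝ) + 1)) :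
    ∀ᵐ ω ∂P, {k | Suc Z ω k}.Infinite ∧
      Y249.BG.CycIn (fun n => Nat.nth (Suc Z ω) (n - 1)) := by
  -- normalise the constants
  set C₁ : ℝ := max C 1 with hC₁
  set n₁ : ℕ := max n₀ 16 with hn₁
  have hup1 : ∀ k, n₁ ≤ k → s k ≤ C₁ * Real.log (Real.log ((k : ℝ) + 1)) / ((k : ℝ) + 1) := by
    intro k hk
    have hk16 : 16 ≤ k := (le_max_right _ _).trans hk
    have hk16' : (16 : ℝ) ≤ (k : ℝ) + 1 := by
      have : (16 : ℝ) ≤ k := by exact_mod_cast hk16
      linarith
    have hL := loglog_pos hk16'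
    refine (hup k ((le_max_left _ _).trans hk)).trans ?_
    gcongr
    exact le_max_left _ _
  have hC₁1 : 1 ≤ C₁ := le_max_right _ _
  have hLL16 : 0 < Real.log (Real.log 16) := loglog_pos le_rfl
  -- the constants `c d`
  set cd : ℕ → ℝ := fun d => min (Real.log (Real.log 16)) (1 / (96 * (d + 1) * C₁)) with hcd
  have hcd0 : ∀ d, 0 < cd d := fun d => lt_min hLL16 (by positivity)
  have hcd1 : ∀ d, cd d ≤ Real.log (Real.log 16) := fun d => min_le_left _ _
  have hcd2 : ∀ d : ℕ, 2 * C₁ * cd d ≤ 1 / (48 * (d + 1)) := by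
    intro d
    calc 2 * C₁ * cd d ≤ 2 * C₁ * (1 / (96 * (d + 1) * C₁)) := by
          apply mul_le_mul_of_nonneg_left (min_le_right _ _) (by positivity)
      _ = 1 / (48 * (d + 1)) := by field_simp; norm_num
  -- divergence
  have hone_s : ∀ k, 0 ≤ s k := by
    intro k
    rw [← hs]
    apply integral_nonneg
    intro ω
    rcases h01 k ω with h | h <;> simp [h]
  have hwlow : ∀ n : ℕ, c₀ * Real.log ((n + 1 : ℕ) : ℝ) - c₀ * n₀ ≤
      ∑ k ∈ Finset.range n, s k := by
    intro n
    have h1 : ∑ k ∈ Finset.range n, (c₀ / ((k : ℝ) + 1) - if k < n₀ then c₀ else 0) ≤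
        ∑ k ∈ Finset.range n, s k := by
      apply Finset.sum_le_sum
      intro k _
      split_ifs with hk
      · have h2 : c₀ / ((k : ℝ) + 1) ≤ c₀ := by
          apply div_le_self hc₀.le
          have := Nat.cast_nonneg (α := ℝ) k
          linarith
        linarith [hone_s k]
      · rw [sub_zero]
        exact hlow k (by omega)
    rw [Finset.sum_sub_distrib] at h1
    have h2 : ∑ k ∈ Finset.range n, (if k < n₀ then c₀ else 0) ≤ c₀ * n₀ := by
      rw [← Finset.sum_filter, Finset.sum_const, nsmul_eq_mul, mul_comm]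
      apply mul_le_mul_of_nonneg_left _ hc₀.le
      have : ((Finset.range n).filter (fun k => k < n₀)).card ≤ n₀ := by
        calc ((Finset.range n).filter (fun k => k < n₀)).card ≤ (Finset.range n₀).card := by
              apply Finset.card_le_card
              intro k hk
              rw [Finset.mem_filter] at hk
              exact Finset.mem_range.2 hk.2
          _ = n₀ := Finset.card_range _
      exact_mod_cast this
    have h3 : ∑ k ∈ Finset.range n, c₀ / ((k : ℝ) + 1) = c₀ * (harmonic n : ℝ) := by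
      unfold harmonic
      push_cast
      rw [Finset.mul_sum]
      refine Finset.sum_congr rfl fun k _ => ?_
      rw [div_eq_mul_inv]
    have h4 := log_add_one_le_harmonic n
    have h5 := mul_le_mul_of_nonneg_left h4 hc₀.le
    linarith
  have hdiv : Tendsto (fun n => ∑ k ∈ Finset.range n, s k) atTop atTop := by
    refine tendsto_atTop_mono hwlow ?_
    apply tendsto_atTop_add_const_right
    apply Tendsto.const_mul_atTop hc₀
    exact Real.tendsto_log_atTop.comp
      (tendsto_natCast_atTop_atTop.comp (tendsto_add_atTop_nat 1))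
  -- the almost sure event
  have hae : ∀ d : ℕ, ∀ᵐ ω ∂P, ∀ᶠ n in atTop,
      (∑ k ∈ Finset.range n, s k) / 3 ≤ ∑ k ∈ Finset.range n, Z k ω ∧
      ∑ k ∈ Finset.range n, yy Z (hf n₁ (cd d)) k ω ≤
        4 * (1 / (48 * (d + 1))) * ∑ k ∈ Finset.range n, s k := by
    intro d
    refine asymp hm hind h01 hs (h := hf n₁ (cd d)) (α := 1 / (48 * ((d : ℝ) + 1)))
      (by positivity) ?_ (fun k => ?_) (by positivity) hdiv
    · rw [div_le_one (by positivity)]
      have := Nat.cast_nonneg (α := ℝ) d
      linarith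
    · exact (hf_sum s n₁ (le_max_right _ _) C₁ hC₁1 hup1 (cd d) (hcd0 d) (hcd1 d) k).trans (hcd2 d)
  filter_upwards [ae_all_iff.2 hae] with ω hω
  apply cycIn_of_density
  · rintro ⟨h, _⟩
    omega
  · refine ⟨c₀ / 6, by positivity, ?_⟩
    have h1 := hω 0
    have h2 : ∀ᶠ n : ℕ in atTop, 2 * n₀ ≤ Real.log ((n + 1 : ℕ) : ℝ) :=
      (Real.tendsto_log_atTop.comp
        (tendsto_natCast_atTop_atTop.comp (tendsto_add_atTop_nat 1))).eventually_ge_atTop _
    have h3 : ∀ᶠ n : ℕ in atTop, c₀ / 6 * Real.log ((n + 1 : ℕ) : ℝ) ≤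
        (((Finset.range (n + 1)).filter (Suc Z ω)).card : ℝ) := by
      filter_upwards [h1, h2] with n h1 h2
      rw [← sum_Z_eq h01 ω n]
      have h4 := hwlow n
      have h5 := h1.1
      have h6 := mul_le_mul_of_nonneg_left h2 hc₀.le
      linarith
    obtain ⟨N, hN⟩ := eventually_atTop.1 h3
    refine eventually_atTop.2 ⟨N + 1, fun n hn => ?_⟩
    have h4 := hN (n - 1) (by omega)
    rw [Nat.sub_add_cancel (by omega)] at h4
    exact h4
  · intro d hd
    refine ⟨cd d, hcd0 d, ?_⟩
    have h2 : ∀ᶠ n in atTop, (4 * d * n₁ * 3 : ℝ) ≤ ∑ k ∈ Finset.range n, s k :=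
      hdiv.eventually_ge_atTop _
    have h3 : ∀ᶠ n : ℕ in atTop,
        2 * d * ((Finset.range (n + 1)).filter (Bad (Suc Z ω) (cd d))).card ≤
          ((Finset.range (n + 1)).filter (Suc Z ω)).card := by
      filter_upwards [hω d, h2] with n h1 h2
      have h4 := bad_le h01 ω n₁ (cd d) n
      have h5 := sum_Z_eq h01 ω n
      have h6 : (2 * d * ((Finset.range (n + 1)).filter (Bad (Suc Z ω) (cd d))).card : ℝ) ≤
          (((Finset.range (n + 1)).filter (Suc Z ω)).card : ℝ) := by
        rw [← h5]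
        have hd0 : (0 : ℝ) ≤ d := Nat.cast_nonneg d
        have hw0 : 0 ≤ ∑ k ∈ Finset.range n, s k := Finset.sum_nonneg fun k _ => hone_s k
        have h7 : (2 * d * ((Finset.range (n + 1)).filter (Bad (Suc Z ω) (cd d))).card : ℝ) ≤
            2 * d * (4 * (1 / (48 * (d + 1))) * ∑ k ∈ Finset.range n, s k + n₁) := by
          apply mul_le_mul_of_nonneg_left _ (by positivity)
          linarith [h1.2]
        have h8 : 2 * (d : ℝ) * (4 * (1 / (48 * (d + 1))) * ∑ k ∈ Finset.range n, s k) ≤
            (∑ k ∈ Finset.range n, s k) / 6 := by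
          have e : 2 * (d : ℝ) * (4 * (1 / (48 * (d + 1))) * ∑ k ∈ Finset.range n, s k) =
              (d / (d + 1)) * ((∑ k ∈ Finset.range n, s k) / 6) := by
            field_simp
            ring
          rw [e]
          apply mul_le_of_le_one_left (by positivity)
          rw [div_le_one (by positivity)]
          linarith
        have h9 := h1.1
        nlinarith
      exact_mod_cast h6
    obtain ⟨N, hN⟩ := eventually_atTop.1 h3
    refine eventually_atTop.2 ⟨N + 1, fun n hn => ?_⟩
    have h4 := hN (n - 1) (by omega)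
    rw [Nat.sub_add_cancel (by omega)] at h4
    exact h4

end

end Pool.Agent.NH63.Rand
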